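import Mathlib
import Pool.Agent.H709Exc.J_girth_graph

/-!
# An infinite family of cycles whose Turán number is superlinear, but which cannot be avoided
by spanning subgraphs of minimum degree two

The forbidden cycle lengths are `4` and the lengths in a sequence of long intervals
`(m i, b (i + 1)]`, separated by long gaps.
-/

set_option autoImplicit false

namespace Pool.Agent.H449Z.CycFam

open SimpleGraph

/-- Regular graphs of every degree and arbitrarily large girth. -/
theorem reg_girth (d g : ℕ) : ∃ n : ℕ, 0 < n ∧ ∃ G : SimpleGraph (Fin n),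
    (∀ v, (G.neighborSet v).ncard = d) ∧ ∀ (v : Fin n) (w : G.Walk v v), w.IsCycle → g < w.length := by
  classical
  obtain ⟨Γ, hG, hF, s, hs, hw⟩ := Pool.Agent.H709Exc.girth_graph_biggs d (g + 2)
  have hs1 : ∀ c, s c ≠ 1 := by
    intro c h
    apply hw [c] (by simp) (by simp) (List.isChain_singleton _)
    simp [h]
  have hinj : Function.Injective s := by
    intro c c' h
    by_contra hne
    apply hw [c, c'] (by simp) (by simp)
    · rw [List.isChain_cons_cons]
      exact ⟨hne, List.isChain_singleton _⟩
    · simp only [List.map_cons, List.map_nil, List.prod_cons, List.prod_nil, mul_one]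
      rw [← h, hs]
  let H : SimpleGraph (ULift.{0} Γ) :=
    { Adj := fun x y => ∃ c, y.down = x.down * s c
      symm := ⟨by
        rintro x y ⟨c, hc⟩
        exact ⟨c, by rw [hc, mul_assoc, hs, mul_one]⟩⟩
      loopless := ⟨by
        rintro x ⟨c, hc⟩
        exact hs1 c (by simpa using hc.symm)⟩ }
  have hH : ∀ x y, H.Adj x y ↔ ∃ c, y.down = x.down * s c := fun x y => Iff.rfl
  have hdeg : ∀ v, (H.neighborSet v).ncard = d := by
    intro v
    have : H.neighborSet v = Set.range (fun c : Fin d => (ULift.up (v.down * s c) : ULift.{0} Γ)) := by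
      ext w
      simp only [mem_neighborSet, hH, Set.mem_range]
      constructor
      · rintro ⟨c, hc⟩
        exact ⟨c, by rw [← hc]⟩
      · rintro ⟨c, hc⟩
        exact ⟨c, by rw [← hc]⟩
    rw [this, Set.ncard_range_of_injective]
    · simp
    · intro c c' h
      have h1 : v.down * s c = v.down * s c' := congrArg ULift.down h
      exact hinj (mul_left_cancel h1)
  have hgirth : ∀ (v : ULift.{0} Γ) (w : H.Walk v v), w.IsCycle → g < w.length := by
    intro v w hcyc
    by_contra hlen
    push Not at hlen
    obtain ⟨l, hl1, hl2, hl3, -⟩ :=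
      Pool.Agent.H709Exc.girth_graph_walk d s hs H hH w hcyc.isTrail
    have hne : l ≠ [] := by
      intro h
      rw [h] at hl1
      have := hcyc.three_le_length
      simp at hl1
      omega
    apply hw l hne (by omega) hl3
    have : v.down * 1 = v.down * (l.map s).prod := by rw [mul_one]; exact hl2
    exact (mul_left_cancel this).symm
  let e : Fin (Fintype.card (ULift.{0} Γ)) ≃ ULift.{0} Γ := (Fintype.equivFin _).symm
  refine ⟨Fintype.card (ULift.{0} Γ), Fintype.card_pos, H.comap e, ?_, ?_⟩
  · intro v
    rw [← hdeg (e v)]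
    have : H.neighborSet (e v) = e '' ((H.comap e).neighborSet v) := by
      ext w
      constructor
      · intro h
        exact ⟨e.symm w, by simpa using h, by simp⟩
      · rintro ⟨x, hx, rfl⟩
        exact hx
    rw [this, Set.ncard_image_of_injective _ e.injective]
  · intro v w hc
    have h1 := hgirth _ (w.map (Iso.comap e H).toHom) (hc.map (Iso.comap e H).injective)
    rwa [Walk.length_map] at h1

/-- A finite nonempty graph of minimum degree at least two has a cycle. -/
theorem exists_cycle {n : ℕ} (hn : 0 < n) (H : SimpleGraph (Fin n))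
    (h : ∀ v, 2 ≤ (H.neighborSet v).ncard) : ∃ (v : Fin n) (w : H.Walk v v), w.IsCycle := by
  classical
  by_contra hc
  have hac : H.IsAcyclic := fun v w hw => hc ⟨v, w, hw⟩
  haveI : Nonempty (Fin n) := ⟨⟨0, hn⟩⟩
  obtain ⟨u, v, p, hp, hmax⟩ := Walk.exists_isPath_forall_isPath_length_le_length H
  have hsub : H.neighborSet u ⊆ {p.snd} := by
    intro w hw
    have hw' : H.Adj u w := hw
    have hs : w ∈ p.support := by
      by_contra hs
      have := hmax _ _ (Walk.cons hw'.symm p) (hp.cons hs)
      simp at this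
    exact hac.eq_snd_of_adj_start hp hw' hs
  have := Set.ncard_le_ncard hsub
  have h2 := h u
  rw [Set.ncard_singleton] at this
  omega

theorem cycle_length_le {n : ℕ} {H : SimpleGraph (Fin n)} {v : Fin n} {p : H.Walk v v}
    (hp : p.IsCycle) : p.length ≤ n := by
  have h1 : p.support.tail.Nodup := hp.support_nodup
  have h2 := h1.length_le_card
  rw [List.length_tail, Walk.length_support, Fintype.card_fin] at h2
  omega

theorem two_mul_edges {n d : ℕ} (G : SimpleGraph (Fin n)) (h : ∀ v, (G.neighborSet v).ncard = d) :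
    2 * G.edgeSet.ncard = n * d := by
  classical
  have h1 := G.sum_degrees_eq_twice_card_edges
  have h2 : ∀ v, G.degree v = d := by
    intro v
    rw [← h v, ← card_neighborSet_eq_degree, Set.ncard_eq_toFinset_card', Set.toFinset_card]
  simp only [h2, Finset.sum_const, Finset.card_univ, Fintype.card_fin, smul_eq_mul] at h1
  rw [h1, Set.ncard_eq_toFinset_card']
  rfl

/-- The number of vertices of the chosen `d`-regular graph of girth more than `g`. -/
noncomputable def N (d g : ℕ) : ℕ := (reg_girth d g).choose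

theorem N_pos (d g : ℕ) : 0 < N d g := (reg_girth d g).choose_spec.1

/-- The chosen `d`-regular graph of girth more than `g`. -/
noncomputable def R (d g : ℕ) : SimpleGraph (Fin (N d g)) := (reg_girth d g).choose_spec.2.choose

theorem R_deg (d g : ℕ) (v : Fin (N d g)) : ((R d g).neighborSet v).ncard = d :=
  (reg_girth d g).choose_spec.2.choose_spec.1 v

theorem R_girth (d g : ℕ) (v : Fin (N d g)) (w : (R d g).Walk v v) (hw : w.IsCycle) :
    g < w.length :=
  (reg_girth d g).choose_spec.2.choose_spec.2 v w hw

/-- The right ends of the forbidden intervals. -/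
noncomputable def b : ℕ → ℕ
  | 0 => 4
  | i + 1 => (N i (b i) + b i) + N (N i (b i)) (N i (b i) + b i)

/-- The left ends of the forbidden intervals. -/
noncomputable def m (i : ℕ) : ℕ := N i (b i) + b i

theorem b_succ (i : ℕ) : b (i + 1) = m i + N (N i (b i)) (m i) := rfl

theorem b_mono : Monotone b := monotone_nat_of_le_succ fun i => by
  rw [b_succ, m]; omega

theorem m_mono : Monotone m := monotone_nat_of_le_succ fun i => by
  have : m (i + 1) = N (i + 1) (b (i + 1)) + b (i + 1) := rfl
  rw [this, b_succ]; omega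

theorem four_le_b (i : ℕ) : 4 ≤ b i := b_mono (Nat.zero_le i)

/-- The forbidden cycle lengths. -/
def S : Set ℕ := {l | l = 4 ∨ ∃ j, m j < l ∧ l ≤ b (j + 1)}

theorem four_le_of_mem {l : ℕ} (h : l ∈ S) : 4 ≤ l := by
  rcases h with h | ⟨j, h, -⟩
  · omega
  · have := four_le_b j
    rw [m] at h
    omega

/-- The family of forbidden cycles. -/
def F : Set (Σ k : ℕ, SimpleGraph (Fin k)) := {p | ∃ l ∈ S, p = ⟨l, cycleGraph l⟩}

theorem F_cyclic : ∀ p ∈ F, ¬ p.2.IsAcyclic := by
  rintro p ⟨l, hl, rfl⟩ h
  have := four_le_of_mem hl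
  exact isAcyclic_iff_free_cycleGraph.mp h l (by omega) (IsContained.refl _)

theorem F_bip : ∃ p ∈ F, p.2.Colorable 2 :=
  ⟨⟨4, cycleGraph 4⟩, ⟨4, Or.inl rfl, rfl⟩, by
    simpa using (cycleGraph.bicoloring_of_even 4 (by decide)).colorable⟩

theorem T_free (i : ℕ) : ∀ p ∈ F, ¬ p.2.IsContained (R i (b i)) := by
  rintro p ⟨l, hl, rfl⟩ h
  have h4 := four_le_of_mem hl
  obtain ⟨v, w, hw, hlen⟩ := (cycleGraph_isContained_iff (by omega)).mp h
  have h1 := R_girth _ _ v w hw
  have h2 := cycle_length_le hw
  rw [hlen] at h1 h2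
  rcases hl with h | ⟨j, hj1, hj2⟩
  · have := four_le_b i
    omega
  · rcases lt_or_ge j i with hji | hji
    · have := b_mono (show j + 1 ≤ i from hji)
      omega
    · have h3 := m_mono hji
      have h5 : m i = N i (b i) + b i := rfl
      omega

theorem G_forces (i : ℕ) (H : SimpleGraph (Fin (N (N i (b i)) (m i))))
    (hle : H ≤ R (N i (b i)) (m i)) (h : ∀ v, 2 ≤ (H.neighborSet v).ncard) :
    ∃ p ∈ F, p.2.IsContained H := by
  obtain ⟨v, w, hw⟩ := exists_cycle (N_pos _ _) H h
  have h1 := R_girth _ _ v (w.mapLe hle) (hw.mapLe hle)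
  have h1' : (w.mapLe hle).length = w.length := by simp [Walk.mapLe]
  have h2 := cycle_length_le hw
  have hS : w.length ∈ S := Or.inr ⟨i, by omega, by rw [b_succ]; omega⟩
  refine ⟨⟨w.length, cycleGraph w.length⟩, ⟨_, hS, rfl⟩, ?_⟩
  have h4 := four_le_of_mem hS
  exact (cycleGraph_isContained_iff (by omega)).mpr ⟨v, w, hw, rfl⟩

end Pool.Agent.H449Z.CycFam
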