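import Pool.Agent.H449Z.DBRNorm

set_option autoImplicit false

open PowerSeries Filter Topology
open scoped InnerProductSpace

namespace Pool.Agent.H449Z.DBR

noncomputable def vv (j N : ℕ) (Φ F : ℂ⟦X⟧) : ℂ :=
  ∑ n ∈ Finset.range N, (starRingEnd ℂ) (coeff n Φ) * coeff (j + n) F

noncomputable def LL (j : ℕ) (v : ℂ) : ℕ := ⌈(‖v‖ * 2 ^ (j + 1) / dl j ^ 2) ^ 2⌉₊ + 1

noncomputable def tt (j : ℕ) : ℂ := ((dl j ^ 2 : ℝ) : ℂ)

noncomputable def step (j : ℕ) (s : ℕ × ℂ⟦X⟧ × ℂ⟦X⟧) : ℕ × ℂ⟦X⟧ × ℂ⟦X⟧ :=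
  (s.1 + (j + 1) * LL j (vv j s.1 s.2.1 s.2.2) + j,
    s.2.1 + C (tt j) * B s.1 (j + 1) (LL j (vv j s.1 s.2.1 s.2.2)),
    s.2.2 + C (-vv j s.1 s.2.1 s.2.2 / (tt j * LL j (vv j s.1 s.2.1 s.2.2))) *
      (X ^ j * B s.1 (j + 1) (LL j (vv j s.1 s.2.1 s.2.2))))

noncomputable def st : ℕ → ℕ × ℂ⟦X⟧ × ℂ⟦X⟧
  | 0 => (1, 1, 1)
  | j + 1 => step j (st j)

noncomputable def N (j : ℕ) : ℕ := (st j).1
noncomputable def Ph (j : ℕ) : ℂ⟦X⟧ := (st j).2.1
noncomputable def F (j : ℕ) : ℂ⟦X⟧ := (st j).2.2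
noncomputable def v (j : ℕ) : ℂ := vv j (N j) (Ph j) (F j)
noncomputable def L (j : ℕ) : ℕ := LL j (v j)
noncomputable def al (j : ℕ) : ℂ := -v j / (tt j * L j)
noncomputable def Bj (j : ℕ) : ℂ⟦X⟧ := B (N j) (j + 1) (L j)
noncomputable def Sj (j : ℕ) : Finset ℕ := S (N j) (j + 1) (L j)

lemma N_zero : N 0 = 1 := rfl
lemma Ph_zero : Ph 0 = 1 := rfl
lemma F_zero : F 0 = 1 := rfl
lemma N_succ (j : ℕ) : N (j + 1) = N j + (j + 1) * L j + j := rfl
lemma Ph_succ (j : ℕ) : Ph (j + 1) = Ph j + C (tt j) * Bj j := rfl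
lemma F_succ (j : ℕ) : F (j + 1) = F j + C (al j) * (X ^ j * Bj j) := rfl

lemma L_pos (j : ℕ) : 0 < L j := Nat.succ_pos _

lemma N_lt_succ (j : ℕ) : N j < N (j + 1) := by
  rw [N_succ]
  have := L_pos j
  have : 0 < (j + 1) * L j := by positivity
  omega

lemma N_mono : Monotone N := (strictMono_nat_of_lt_succ N_lt_succ).monotone

lemma lt_N (j : ℕ) : j < N j := by
  induction j with
  | zero => rw [N_zero]; omega
  | succ j ih => have := N_lt_succ j; omega

lemma coeff_Bj (j n : ℕ) : coeff n (Bj j) = if n ∈ Sj j then 1 else 0 :=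
  coeff_B _ _ _ _ (Nat.succ_pos j)

lemma mem_Sj {j n : ℕ} (h : n ∈ Sj j) :
    N j ≤ n ∧ n + j < N (j + 1) ∧ ∃ i, n = N j + (j + 1) * i := by
  obtain ⟨i, hi, rfl⟩ := Finset.mem_image.1 h
  have hi2 : i + 1 ≤ L j := Finset.mem_range.1 hi
  have : (j + 1) * (i + 1) ≤ (j + 1) * L j := by gcongr
  refine ⟨by omega, ?_, i, rfl⟩
  rw [N_succ]
  nlinarith

lemma supp_Ph (j n : ℕ) (hn : N j ≤ n) : coeff n (Ph j) = 0 := by
  induction j with
  | zero =>
    rw [N_zero] at hn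
    rw [Ph_zero, coeff_one, if_neg (by omega)]
  | succ j ih =>
    have := N_lt_succ j
    rw [Ph_succ, map_add, ih (by omega), coeff_C_mul, coeff_Bj, if_neg]
    · simp
    · intro h
      have := mem_Sj h
      omega

lemma supp_F (j n : ℕ) (hn : N j ≤ n) : coeff n (F j) = 0 := by
  induction j with
  | zero =>
    rw [N_zero] at hn
    rw [F_zero, coeff_one, if_neg (by omega)]
  | succ j ih =>
    have := N_lt_succ j
    rw [F_succ, map_add, ih (by omega), coeff_C_mul, coeff_X_pow_mul']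
    split_ifs with h1
    · rw [coeff_Bj, if_neg]
      · simp
      · intro h
        have := mem_Sj h
        omega
    · simp

lemma dvd_Ph (j : ℕ) : X ^ N j ∣ Ph (j + 1) - Ph j := by
  rw [Ph_succ, add_sub_cancel_left]
  exact Dvd.dvd.mul_left (Dvd.intro _ rfl) _

lemma dvd_F (j : ℕ) : X ^ (N j + j) ∣ F (j + 1) - F j := by
  rw [F_succ, add_sub_cancel_left]
  refine Dvd.dvd.mul_left ?_ _
  rw [add_comm, pow_add]
  exact mul_dvd_mul_left _ (Dvd.intro _ rfl)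

noncomputable def ph : ℂ⟦X⟧ := lim Ph
noncomputable def ff : ℂ⟦X⟧ := lim F

lemma coeff_ph (k n : ℕ) (hn : n < N k) : coeff n ph = coeff n (Ph k) :=
  coeff_lim Ph N N_mono (fun k => (lt_N k).le) dvd_Ph k n hn

lemma NN_mono : Monotone fun k => N k + k := fun _ _ h => Nat.add_le_add (N_mono h) h

lemma coeff_ff (k n : ℕ) (hn : n < N k + k) : coeff n ff = coeff n (F k) :=
  coeff_lim F (fun k => N k + k) NN_mono (fun k => by omega) dvd_F k n hn

lemma ph_block (k n : ℕ) (h1 : N k ≤ n) (h2 : n < N (k + 1)) :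
    coeff n ph = if n ∈ Sj k then tt k else 0 := by
  rw [coeff_ph (k + 1) n h2, Ph_succ, map_add, supp_Ph k n h1, coeff_C_mul, coeff_Bj]
  simp

lemma ff_block (k n : ℕ) (h1 : N k ≤ n) (h2 : n < N (k + 1)) :
    coeff n ff = if k ≤ n ∧ n - k ∈ Sj k then al k else 0 := by
  rw [coeff_ff (k + 1) n (by omega), F_succ, map_add, supp_F k n h1, coeff_C_mul,
    coeff_X_pow_mul', coeff_Bj]
  by_cases a1 : k ≤ n <;> by_cases a2 : n - k ∈ Sj k <;> simp [a1, a2]

lemma term_vanish (m k n : ℕ) (hm : m < k) (h1 : N k ≤ n) (h2 : n < N (k + 1)) :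
    (starRingEnd ℂ) (coeff n ph) * coeff (m + n) ff = 0 := by
  rw [ph_block k n h1 h2]
  split_ifs with hn
  · obtain ⟨a1, a2, i, hi⟩ := mem_Sj hn
    rw [ff_block k (m + n) (by omega) (by omega), if_neg, mul_zero]
    rintro ⟨b1, b2⟩
    obtain ⟨c1, c2, i', hi'⟩ := mem_Sj b2
    have e : m + (k + 1) * i = k + (k + 1) * i' := by omega
    have e2 := congrArg (· % (k + 1)) e
    simp only [Nat.add_mul_mod_self_left] at e2
    rw [Nat.mod_eq_of_lt (by omega), Nat.mod_eq_of_lt (by omega)] at e2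
    omega
  · simp

lemma exists_block (m n : ℕ) (h : N (m + 1) ≤ n) : ∃ k, m < k ∧ N k ≤ n ∧ n < N (k + 1) := by
  classical
  have hex : ∃ k, n < N (k + 1) := ⟨n, by have := lt_N (n + 1); omega⟩
  have h1 := Nat.find_spec hex
  have h2 : m < Nat.find hex := by
    by_contra hc
    have : N (Nat.find hex + 1) ≤ N (m + 1) := N_mono (by omega)
    omega
  refine ⟨Nat.find hex, h2, ?_, h1⟩
  have h3 := Nat.find_min hex (m := Nat.find hex - 1) (by omega)
  rw [show Nat.find hex - 1 + 1 = Nat.find hex by omega] at h3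
  omega

lemma tt_ne (j : ℕ) : tt j ≠ 0 := by
  unfold tt
  have := dl_pos j
  exact_mod_cast (by positivity : dl j ^ 2 ≠ 0)

lemma sum_zero (m : ℕ) :
    ∑ n ∈ Finset.range (N (m + 1)), (starRingEnd ℂ) (coeff n ph) * coeff (m + n) ff = 0 := by
  rw [← Finset.sum_range_add_sum_Ico _ (N_lt_succ m).le]
  have h1 : ∑ n ∈ Finset.range (N m), (starRingEnd ℂ) (coeff n ph) * coeff (m + n) ff = v m := by
    unfold v vv
    refine Finset.sum_congr rfl fun n hn => ?_
    have := Finset.mem_range.1 hn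
    rw [coeff_ph m n this, coeff_ff m (m + n) (by omega)]
  have h2 : ∑ n ∈ Finset.Ico (N m) (N (m + 1)), (starRingEnd ℂ) (coeff n ph) * coeff (m + n) ff =
      ∑ n ∈ Finset.Ico (N m) (N (m + 1)), if n ∈ Sj m then tt m * al m else 0 := by
    refine Finset.sum_congr rfl fun n hn => ?_
    obtain ⟨a1, a2⟩ := Finset.mem_Ico.1 hn
    rw [ph_block m n a1 a2]
    split_ifs with hS
    · obtain ⟨b1, b2, -⟩ := mem_Sj hS
      rw [ff_block m (m + n) (by omega) (by omega), if_pos ⟨by omega, by simpa using hS⟩]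
      congr 1
      unfold tt
      exact Complex.conj_ofReal _
    · simp
  have h3 : (Finset.Ico (N m) (N (m + 1))).filter (fun n => n ∈ Sj m) = Sj m := by
    ext n
    simp only [Finset.mem_filter, Finset.mem_Ico]
    constructor
    · exact fun h => h.2
    · intro h
      obtain ⟨b1, b2, -⟩ := mem_Sj h
      exact ⟨⟨b1, by omega⟩, h⟩
  rw [h1, h2, ← Finset.sum_filter, h3, Finset.sum_const, nsmul_eq_mul]
  have h4 : (Sj m).card = L m := card_S _ _ _ (Nat.succ_pos m)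
  rw [h4]
  have h5 := tt_ne m
  have h6 : (L m : ℂ) ≠ 0 := by exact_mod_cast (L_pos m).ne'
  unfold al
  field_simp
  ring

lemma tendsto_zero (m : ℕ) : Tendsto (fun M => ∑ n ∈ Finset.range M,
    (starRingEnd ℂ) (coeff n ph) * coeff (m + n) ff) atTop (𝓝 0) := by
  refine tendsto_const_nhds.congr' ?_
  filter_upwards [eventually_ge_atTop (N (m + 1))] with M hM
  rw [← Finset.sum_range_add_sum_Ico _ hM, sum_zero, zero_add]
  symm
  refine Finset.sum_eq_zero fun n hn => ?_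
  obtain ⟨k, a1, a2, a3⟩ := exists_block m n (Finset.mem_Ico.1 hn).1
  exact term_vanish m k n a1 a2 a3

lemma norm_tt (j : ℕ) : ‖tt j‖ = dl j ^ 2 := by
  unfold tt
  rw [Complex.norm_real, Real.norm_of_nonneg (by positivity)]

lemma al_bound (j : ℕ) : ‖al j‖ * Real.sqrt (L j) ≤ (1/2) ^ (j + 1) := by
  have hL : (0:ℝ) < L j := by exact_mod_cast L_pos j
  have hd := dl_pos j
  have h1 : ‖v j‖ * 2 ^ (j + 1) / dl j ^ 2 ≤ Real.sqrt (L j) := by
    apply Real.le_sqrt_of_sq_le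
    have := Nat.le_ceil ((‖v j‖ * 2 ^ (j + 1) / dl j ^ 2) ^ 2)
    unfold L LL
    push_cast
    linarith
  have hs : 0 < Real.sqrt (L j) := Real.sqrt_pos.2 hL
  have h2 : ‖al j‖ = ‖v j‖ / (dl j ^ 2 * (Real.sqrt (L j) * Real.sqrt (L j))) := by
    unfold al
    rw [norm_div, norm_neg, norm_mul, norm_tt, Real.mul_self_sqrt hL.le, Complex.norm_natCast]
  rw [h2, one_div, inv_pow]
  rw [div_le_iff₀ (by positivity)] at h1
  rw [div_mul_eq_mul_div, div_le_iff₀ (by positivity), inv_mul_eq_div, le_div_iff₀ (by positivity)]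
  nlinarith

lemma nm_F (M k : ℕ) : nm M (F k) ≤ 2 - (1/2) ^ k := by
  induction k with
  | zero =>
    rw [F_zero]
    have := nm_one M
    norm_num
    linarith
  | succ k ih =>
    rw [F_succ]
    have h1 := nm_add M (F k) (C (al k) * (X ^ k * Bj k))
    rw [nm_C_mul] at h1
    have h2 := nm_X_pow_mul M k (Bj k)
    have h3 : nm M (Bj k) ≤ Real.sqrt (L k) := nm_B M _ _ _ (Nat.succ_pos k)
    have h4 := al_bound k
    have h5 : ‖al k‖ * nm M (X ^ k * Bj k) ≤ ‖al k‖ * Real.sqrt (L k) := by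
      gcongr
      exact h2.trans h3
    rw [pow_succ] at h4 ⊢
    linarith

lemma nm_ff (M : ℕ) : nm M ff ≤ 2 := by
  rw [nm_congr M ff (F M) (lim_dvd F (fun k => N k + k) NN_mono (fun k => by omega) dvd_F M M le_rfl)]
  have := nm_F M M
  have : (0:ℝ) ≤ (1/2) ^ M := by positivity
  linarith

lemma nm_Ph (J : ℕ) : ∃ c : ℝ, ∀ M, nm M (Ph J) ≤ c := by
  induction J with
  | zero => exact ⟨1, fun M => nm_one M⟩
  | succ J ih =>
    obtain ⟨c, hc⟩ := ih
    refine ⟨c + ‖tt J‖ * Real.sqrt (L J), fun M => ?_⟩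
    rw [Ph_succ]
    have h1 := nm_add M (Ph J) (C (tt J) * Bj J)
    rw [nm_C_mul] at h1
    have h3 : nm M (Bj J) ≤ Real.sqrt (L J) := nm_B M _ _ _ (Nat.succ_pos J)
    have h5 : ‖tt J‖ * nm M (Bj J) ≤ ‖tt J‖ * Real.sqrt (L J) := by gcongr
    have := hc M
    linarith

noncomputable def P (J k : ℕ) : ℂ⟦X⟧ := ∏ j ∈ Finset.Ico J k, uu j

lemma dvd_P (J k : ℕ) : X ^ k ∣ P J (k + 1) - P J k := by
  unfold P
  rcases le_or_gt J k with h | h
  · rw [Finset.prod_Ico_succ_top h, ← mul_sub_one, uu_sub_one]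
    refine Dvd.dvd.mul_left (Dvd.dvd.mul_left ?_ _) _
    exact (pow_dvd_pow _ (Nat.le_succ k)).mul_right _
  · rw [Finset.Ico_eq_empty (by omega), Finset.Ico_eq_empty (by omega)]
    simp

noncomputable def U (J : ℕ) : ℂ⟦X⟧ := lim (P J)

lemma U_dvd (J k M : ℕ) (h : M ≤ k) : X ^ M ∣ U J - P J k :=
  lim_dvd (P J) id monotone_id (fun _ => le_rfl) (dvd_P J) k M h

lemma ph_dvd (k M : ℕ) (h : M ≤ k) : X ^ M ∣ ph - Ph k :=
  lim_dvd Ph N N_mono (fun k => (lt_N k).le) dvd_Ph k M h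

lemma nm_U_sub_one (J M : ℕ) : nm M (U J - 1) ≤ 4 * dl J := by
  rw [nm_congr M (U J - 1) (P J M - 1) (by
    rw [sub_sub_sub_cancel_right]; exact U_dvd J M M le_rfl)]
  have h1 := nm_prod_sub_one M (Finset.Ico J M)
  have h2 := sum_dl_Ico J M
  unfold P
  linarith

lemma Ph_sub (J k : ℕ) : Ph (J + k) - Ph J = ∑ j ∈ Finset.Ico J (J + k), C (tt j) * Bj j := by
  induction k with
  | zero => simp
  | succ k ih =>
    rw [← add_assoc, Finset.sum_Ico_succ_top (by omega), ← ih, Ph_succ]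
    ring

lemma nm_tail (J M : ℕ) : nm M ((ph - Ph J) * U J) ≤ 8 * dl J := by
  rw [nm_congr M ((ph - Ph J) * U J) ((Ph (J + M) - Ph J) * P J (J + M)) (by
    have e : (ph - Ph J) * U J - (Ph (J + M) - Ph J) * P J (J + M) =
        (ph - Ph (J + M)) * U J + (Ph (J + M) - Ph J) * (U J - P J (J + M)) := by ring
    rw [e]
    exact dvd_add ((ph_dvd _ _ (by omega)).mul_right _) ((U_dvd _ _ _ (by omega)).mul_left _))]
  rw [Ph_sub, Finset.sum_mul]
  refine (nm_sum _ _ _).trans ?_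
  have h2 := sum_dl_Ico J (J + M)
  have h3 : ∑ j ∈ Finset.Ico J (J + M), nm M (C (tt j) * Bj j * P J (J + M)) ≤
      ∑ j ∈ Finset.Ico J (J + M), 4 * dl j := by
    refine Finset.sum_le_sum fun j hj => ?_
    unfold P
    rw [← Finset.mul_prod_erase _ _ hj, mul_assoc, nm_C_mul, norm_tt]
    have e : Bj j * (uu j * ∏ x ∈ (Finset.Ico J (J + M)).erase j, uu x) =
        (∏ x ∈ (Finset.Ico J (J + M)).erase j, uu x) * (Bj j * uu j) := by ring
    rw [e]
    have a1 := nm_prod_mul M ((Finset.Ico J (J + M)).erase j) (Bj j * uu j)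
    have a2 : dl j * nm M (Bj j * uu j) ≤ 2 := nm_B_uu M _ _ j
    have a3 := dl_pos j
    calc dl j ^ 2 * nm M ((∏ x ∈ (Finset.Ico J (J + M)).erase j, uu x) * (Bj j * uu j))
        ≤ dl j ^ 2 * (2 * nm M (Bj j * uu j)) := by gcongr
      _ = 2 * dl j * (dl j * nm M (Bj j * uu j)) := by ring
      _ ≤ 2 * dl j * 2 := by gcongr
      _ = 4 * dl j := by ring
  rw [← Finset.mul_sum] at h3
  linarith

lemma nm_ph_U (J : ℕ) : ∃ c : ℝ, ∀ M, nm M (ph * U J) ≤ c := by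
  obtain ⟨c, hc⟩ := nm_Ph J
  refine ⟨8 * dl J + 2 * c, fun M => ?_⟩
  have e : ph * U J = (ph - Ph J) * U J + Ph J * U J := by ring
  rw [e]
  have h1 := nm_add M ((ph - Ph J) * U J) (Ph J * U J)
  have h2 := nm_tail J M
  have h3 : nm M (Ph J * U J) = nm M (P J M * Ph J) := by
    apply nm_congr
    have e2 : Ph J * U J - P J M * Ph J = Ph J * (U J - P J M) := by ring
    rw [e2]
    exact (U_dvd J M M le_rfl).mul_left _
  have h4 := nm_prod_mul M (Finset.Ico J M) (Ph J)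
  have h5 := hc M
  unfold P at h3
  linarith

lemma toPS_one : toPS one = 1 := by
  ext n
  rw [coeff_toPS, coeff_one]
  unfold one
  rw [lp.single_apply]
  by_cases h : n = 0
  · simp [h]
  · simp [h]

lemma exists_uv (J : ℕ) : ∃ u w : H, toPS u = U J ∧ toPS w = ph * U J ∧ ‖u - one‖ ≤ 4 * dl J := by
  obtain ⟨x, hx1, hx2⟩ := toH _ _ (nm_U_sub_one J)
  obtain ⟨c, hc⟩ := nm_ph_U J
  obtain ⟨w, hw, -⟩ := toH _ _ hc
  refine ⟨x + one, w, ?_, hw, by simpa using hx2⟩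
  rw [toPS_add, hx1, toPS_one, sub_add_cancel]

theorem construction : ∃ Φ : ℂ⟦X⟧,
    (∀ ε : ℝ, 0 < ε → ∃ u w : H, toPS w = Φ * toPS u ∧ ‖u - one‖ ≤ ε) ∧
    ∃ f u w : H, toPS w = Φ * toPS u ∧ ⟪w, f⟫_ℂ ≠ 0 ∧
      ∀ m, Tendsto (fun M => ∑ n ∈ Finset.range M,
        (starRingEnd ℂ) (coeff n Φ) * f (m + n)) atTop (𝓝 0) := by
  refine ⟨ph, ?_, ?_⟩
  · intro ε hε
    obtain ⟨J, hJ⟩ := exists_pow_lt_of_lt_one hε (by norm_num : (1:ℝ)/2 < 1)
    obtain ⟨u, w, h1, h2, h3⟩ := exists_uv J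
    refine ⟨u, w, by rw [h1, h2], h3.trans ?_⟩
    unfold dl
    linarith
  · obtain ⟨f, hf1, hf2⟩ := toH _ _ nm_ff
    obtain ⟨u, w, h1, h2, -⟩ := exists_uv 0
    have hcf : ∀ n, f n = coeff n ff := by
      intro n
      rw [← hf1, coeff_toPS]
    refine ⟨f, u, w, by rw [h1, h2], ?_, ?_⟩
    · intro h0
      have h3 : ∀ M, nm M (ph * U 0 - 1) ≤ 12 * dl 0 := by
        intro M
        have e : ph * U 0 - 1 = (ph - Ph 0) * U 0 + (U 0 - 1) := by rw [Ph_zero]; ring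
        rw [e]
        have a1 := nm_add M ((ph - Ph 0) * U 0) (U 0 - 1)
        have a2 := nm_tail 0 M
        have a3 := nm_U_sub_one 0 M
        linarith
      obtain ⟨y, hy1, hy2⟩ := toH _ _ h3
      have h4 : y = w - one := by
        ext n
        have a1 := congrArg (coeff n) hy1
        rw [← h2, ← toPS_one, map_sub, coeff_toPS, coeff_toPS, coeff_toPS] at a1
        simpa using a1
      have h5 : f 0 = 1 := by
        rw [hcf, coeff_ff 0 0 (by rw [N_zero]; omega), F_zero]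
        simp
      have h6 : ⟪y, f⟫_ℂ = -1 := by
        rw [h4, inner_sub_left, h0, inner_one, h5]
        simp
      have h7 := norm_inner_le_norm (𝕜 := ℂ) y f
      rw [h6, norm_neg, norm_one] at h7
      have h8 := dl_le 0
      have h9 : ‖y‖ * ‖f‖ ≤ (12 * dl 0) * 2 := by
        have := dl_pos 0
        gcongr
      linarith
    · intro m
      simp_rw [hcf]
      exact tendsto_zero m

end Pool.Agent.H449Z.DBR
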