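import Pool.Agent.H449Z.DBRConstr

set_option autoImplicit false

open PowerSeries Filter Topology
open scoped InnerProductSpace

namespace Pool.Agent.H449Z.DBR

lemma conv_eq (a g y : H) (h : toPS y = toPS a * toPS g) (n : ℕ) :
    ∑ k ∈ Finset.range (n + 1), a k * g (n - k) = y n := by
  have := congrArg (coeff n) h
  rw [coeff_toPS, coeff_mul, Finset.Nat.sum_antidiagonal_eq_sum_range_succ
    (fun i j => coeff i (toPS a) * coeff j (toPS g))] at this
  rw [this]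
  simp

theorem counterexample : ∃ a b φ f : ℕ → ℂ,
    (∀ g : ℕ → ℂ, Summable (fun n => ‖g n‖ ^ 2) →
      Summable (fun n => ‖∑ k ∈ Finset.range (n+1), a k * g (n-k)‖ ^ 2) ∧
      Summable (fun n => ‖∑ k ∈ Finset.range (n+1), b k * g (n-k)‖ ^ 2) ∧
      (∑' n, ‖∑ k ∈ Finset.range (n+1), a k * g (n-k)‖ ^ 2) +
        (∑' n, ‖∑ k ∈ Finset.range (n+1), b k * g (n-k)‖ ^ 2) = ∑' n, ‖g n‖ ^ 2) ∧
    (∀ g : ℕ → ℂ, Summable (fun n => ‖g n‖ ^ 2) →
      (∀ j : ℕ, ∑' n, a n * starRingEnd ℂ (g (n + j)) = 0) → g = 0) ∧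
    0 < (a 0).re ∧ (a 0).im = 0 ∧
    (∀ n, ∑ k ∈ Finset.range (n+1), a k * φ (n-k) = b n) ∧
    Summable (fun n => ‖f n‖ ^ 2) ∧
    (∀ m, Filter.Tendsto (fun N => ∑ n ∈ Finset.range N, starRingEnd ℂ (φ n) * f (m+n))
        Filter.atTop (nhds 0)) ∧
    ¬ (∑' m, ‖f m‖ ^ 2) ∈ upperBounds {x : ℝ | ∃ g : ℕ → ℂ, Summable (fun n => ‖g n‖ ^ 2) ∧
          x = (∑' n, ‖f n + ∑ k ∈ Finset.range (n+1), b k * g (n-k)‖ ^ 2) - ∑' n, ‖g n‖ ^ 2} := by
  obtain ⟨Φ, hd, f, u, w, huw, hwf, hT⟩ := construction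
  obtain ⟨a, b, h1, h2, h3, h4, h5, h6⟩ := exists_pair Φ hd
  refine ⟨a, b, fun n => coeff n Φ, f, ?_, ?_, h3, h4, ?_, H_summable f, hT, ?_⟩
  · intro g hg
    obtain ⟨y, z, hy, hz, hyz⟩ := h1 (mkH g hg)
    have e1 : ∀ n, ∑ k ∈ Finset.range (n + 1), a k * g (n - k) = y n := conv_eq a _ y hy
    have e2 : ∀ n, ∑ k ∈ Finset.range (n + 1), b k * g (n - k) = z n := conv_eq b _ z hz
    simp_rw [e1, e2]
    refine ⟨H_summable y, H_summable z, ?_⟩
    rw [← H_norm_sq, ← H_norm_sq, hyz, H_norm_sq]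
    rfl
  · intro g hg hj
    have := h2 (mkH g hg) (fun j => by
      rw [inner_sh, ← inner_conj_symm, ← (inner_H _ _).tsum_eq]
      have e : (fun n => (starRingEnd ℂ) (bk j (mkH g hg) n) * a n) =
          fun n => a n * starRingEnd ℂ (g (n + j)) := by
        funext n
        simp [mul_comm]
      rw [e, hj j, map_zero])
    funext n
    have h7 : mkH g hg n = 0 := by rw [this]; rfl
    exact h7
  · intro n
    have := congrArg (coeff n) h5
    rw [coeff_toPS, mul_comm, coeff_mul, Finset.Nat.sum_antidiagonal_eq_sum_range_succ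
      (fun i j => coeff i (toPS a) * coeff j Φ)] at this
    rw [this]
    simp
  · intro hub
    apply hwf
    apply h6 f _ u w huw
    intro j
    set s : ℂ := ⟪sh j b, f⟫_ℂ with hs
    set g : H := s • sh j one with hg
    have e1 : toPS (s • sh j b) = toPS b * toPS g := by
      rw [hg, toPS_smul, toPS_smul, toPS_sh, toPS_sh, toPS_one, mul_smul_comm]
      congr 1
      ring
    have e2 := conv_eq b g _ e1
    have h7 := hub ⟨g, H_summable g, rfl⟩
    simp_rw [e2] at h7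
    have e3 : ∑' n, ‖f n + (s • sh j b) n‖ ^ 2 = ‖f + s • sh j b‖ ^ 2 := by
      rw [H_norm_sq]
      rfl
    have e4 : ‖g‖ = ‖s‖ := by
      rw [hg, norm_smul, norm_sh]
      unfold one
      rw [lp.norm_single (by norm_num)]
      simp
    rw [e3, ← H_norm_sq, ← H_norm_sq, e4, @norm_add_sq ℂ, inner_smul_right,
      ← inner_conj_symm, ← hs, Complex.mul_conj'] at h7
    have e5 : RCLike.re ((‖s‖ : ℂ) ^ 2) = ‖s‖ ^ 2 := by
      rw [← Complex.ofReal_pow]
      exact Complex.ofReal_re _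
    rw [e5] at h7
    have h8 : 0 ≤ ‖s • sh j b‖ ^ 2 := by positivity
    have h9 : ‖s‖ ^ 2 ≤ 0 := by linarith
    have h10 : ‖s‖ = 0 := by
      have := norm_nonneg s
      nlinarith
    exact norm_eq_zero.1 h10

end Pool.Agent.H449Z.DBR
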