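import Mathlib

set_option autoImplicit false

open PowerSeries
open scoped InnerProductSpace

namespace Pool.Agent.H449Z.DBR

noncomputable abbrev H := lp (fun _ : ℕ => ℂ) 2

lemma mem_iff (f : ℕ → ℂ) : Memℓp f 2 ↔ Summable fun n => ‖f n‖ ^ 2 := by
  rw [memℓp_gen_iff (by norm_num)]
  simp

lemma H_summable (x : H) : Summable fun n => ‖x n‖ ^ 2 := (mem_iff x).1 (lp.memℓp x)

lemma H_norm_sq (x : H) : ‖x‖ ^ 2 = ∑' n, ‖x n‖ ^ 2 := by
  have := lp.norm_rpow_eq_tsum (p := 2) (by norm_num) x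
  simpa using this

def mkH (f : ℕ → ℂ) (h : Summable fun n => ‖f n‖ ^ 2) : H := ⟨f, (mem_iff f).2 h⟩

@[simp] lemma mkH_apply (f : ℕ → ℂ) (h : Summable fun n => ‖f n‖ ^ 2) (n : ℕ) :
    mkH f h n = f n := rfl

lemma inner_H (x y : H) : HasSum (fun n => (starRingEnd ℂ) (x n) * y n) ⟪x, y⟫_ℂ := by
  have := lp.hasSum_inner (𝕜 := ℂ) x y
  simpa [mul_comm] using this

/-- backward shift -/
noncomputable def bk (n : ℕ) (x : H) : H :=
  mkH (fun k => x (k + n)) ((summable_nat_add_iff (f := fun k => ‖x k‖ ^ 2) n).2 (H_summable x))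

/-- forward shift -/
noncomputable def sh (n : ℕ) (x : H) : H :=
  mkH (fun k => if n ≤ k then x (k - n) else 0) (by
    rw [← summable_nat_add_iff n]
    simpa using H_summable x)

@[simp] lemma bk_apply (n : ℕ) (x : H) (k : ℕ) : bk n x k = x (k + n) := rfl

lemma sh_apply (n : ℕ) (x : H) (k : ℕ) : sh n x k = if n ≤ k then x (k - n) else 0 := rfl

lemma inner_sh (n : ℕ) (x y : H) : ⟪sh n x, y⟫_ℂ = ⟪x, bk n y⟫_ℂ := by
  have h1 := inner_H (sh n x) y
  have h2 := inner_H x (bk n y)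
  have h3 := (hasSum_nat_add_iff' n).2 h1
  have h4 : ∑ i ∈ Finset.range n, (starRingEnd ℂ) (sh n x i) * y i = 0 := by
    refine Finset.sum_eq_zero fun i hi => ?_
    rw [sh_apply, if_neg (by simpa using hi)]
    simp
  rw [h4, sub_zero] at h3
  refine h3.unique ?_
  have h5 : (fun k => (starRingEnd ℂ) (sh n x (k + n)) * y (k + n)) =
      fun k => (starRingEnd ℂ) (x k) * bk n y k := by
    funext k
    simp [sh_apply]
  rw [h5]
  exact h2

lemma bk_sh (m n : ℕ) (h : m ≤ n) (x : H) : bk m (sh n x) = sh (n - m) x := by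
  ext k
  rw [bk_apply, sh_apply, sh_apply]
  by_cases hk : n ≤ k + m
  · rw [if_pos hk, if_pos (by omega), show k + m - n = k - (n - m) by omega]
  · rw [if_neg hk, if_neg (by omega)]

lemma sh_zero (x : H) : sh 0 x = x := by
  ext k
  simp [sh_apply]

lemma sh_sub (n : ℕ) (x y : H) : sh n (x - y) = sh n x - sh n y := by
  ext k
  simp only [sh_apply, lp.coeFn_sub, Pi.sub_apply]
  split_ifs <;> simp

lemma norm_sh (n : ℕ) (x : H) : ‖sh n x‖ = ‖x‖ := by
  have h := inner_sh n x (sh n x)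
  rw [bk_sh n n le_rfl, Nat.sub_self, sh_zero, inner_self_eq_norm_sq_to_K,
    inner_self_eq_norm_sq_to_K] at h
  have h2 : ‖sh n x‖ ^ 2 = ‖x‖ ^ 2 := by exact_mod_cast h
  exact (pow_left_inj₀ (norm_nonneg _) (norm_nonneg _) two_ne_zero).1 h2

noncomputable def toPS (x : H) : ℂ⟦X⟧ := PowerSeries.mk fun n => x n

@[simp] lemma coeff_toPS (x : H) (n : ℕ) : coeff n (toPS x) = x n := by simp [toPS]

lemma toPS_sh (n : ℕ) (x : H) : toPS (sh n x) = X ^ n * toPS x := by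
  ext k
  rw [coeff_X_pow_mul', coeff_toPS, sh_apply]
  simp

lemma toPS_add (x y : H) : toPS (x + y) = toPS x + toPS y := by
  ext k; simp

lemma toPS_smul (c : ℂ) (x : H) : toPS (c • x) = c • toPS x := by
  ext k; simp

lemma toPS_zero : toPS 0 = 0 := by
  ext k; simp

lemma continuous_eval (n : ℕ) : Continuous fun x : H => x n :=
  (lp.evalCLM ℂ (fun _ : ℕ => ℂ) 2 n).continuous

abbrev E := WithLp 2 (H × H)

/-- the graph of multiplication by `Φ` -/
def G (Φ : ℂ⟦X⟧) : Submodule ℂ E where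
  carrier := {x | toPS x.snd = Φ * toPS x.fst}
  add_mem' := by
    intro x y hx hy
    simp only [Set.mem_ofPred_eq, WithLp.add_fst, WithLp.add_snd] at *
    rw [toPS_add, toPS_add, hx, hy, mul_add]
  zero_mem' := by
    simp [toPS_zero]
  smul_mem' := by
    intro c x hx
    simp only [Set.mem_ofPred_eq, WithLp.smul_fst, WithLp.smul_snd] at *
    rw [toPS_smul, toPS_smul, hx, mul_smul_comm]

def G0 (Φ : ℂ⟦X⟧) : Submodule ℂ E where
  carrier := {x | x ∈ G Φ ∧ x.fst 0 = 0}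
  add_mem' := by
    intro x y hx hy
    refine ⟨(G Φ).add_mem hx.1 hy.1, ?_⟩
    simp [hx.2, hy.2]
  zero_mem' := ⟨(G Φ).zero_mem, by simp⟩
  smul_mem' := by
    intro c x hx
    refine ⟨(G Φ).smul_mem c hx.1, ?_⟩
    simp [hx.2]

lemma mem_G (Φ : ℂ⟦X⟧) (x : E) : x ∈ G Φ ↔ toPS x.snd = Φ * toPS x.fst := Iff.rfl

lemma mem_G0 (Φ : ℂ⟦X⟧) (x : E) : x ∈ G0 Φ ↔ x ∈ G Φ ∧ x.fst 0 = 0 := Iff.rfl

lemma isClosed_G (Φ : ℂ⟦X⟧) : IsClosed (G Φ : Set E) := by
  have : (G Φ : Set E) = ⋂ n : ℕ, {x : E | x.snd n =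
      ∑ p ∈ Finset.HasAntidiagonal.antidiagonal n, coeff p.1 Φ * x.fst p.2} := by
    ext x
    simp only [SetLike.mem_coe, mem_G, Set.mem_iInter, Set.mem_ofPred_eq, PowerSeries.ext_iff,
      coeff_toPS, coeff_mul]
  rw [this]
  refine isClosed_iInter fun n => isClosed_eq ?_ ?_
  · exact (continuous_eval n).comp (WithLp.continuous_snd 2 H H)
  · exact continuous_finsetSum _ fun p _ =>
      continuous_const.mul ((continuous_eval p.2).comp (WithLp.continuous_fst 2 H H))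

lemma isClosed_G0 (Φ : ℂ⟦X⟧) : IsClosed (G0 Φ : Set E) :=
  (isClosed_G Φ).inter (isClosed_eq ((continuous_eval 0).comp (WithLp.continuous_fst 2 H H))
    continuous_const)

noncomputable def shE (n : ℕ) (x : E) : E := WithLp.toLp 2 (sh n x.fst, sh n x.snd)

noncomputable def bkE (n : ℕ) (x : E) : E := WithLp.toLp 2 (bk n x.fst, bk n x.snd)

lemma inner_E (x y : E) : ⟪x, y⟫_ℂ = ⟪x.fst, y.fst⟫_ℂ + ⟪x.snd, y.snd⟫_ℂ := rfl

lemma inner_shE (n : ℕ) (x y : E) : ⟪shE n x, y⟫_ℂ = ⟪x, bkE n y⟫_ℂ := by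
  rw [inner_E, inner_E]
  exact congrArg₂ (· + ·) (inner_sh n _ _) (inner_sh n _ _)

lemma bkE_shE (m n : ℕ) (h : m ≤ n) (x : E) : bkE m (shE n x) = shE (n - m) x := by
  unfold bkE shE
  congr 2
  · exact bk_sh m n h _
  · exact bk_sh m n h _

lemma shE_zero (x : E) : shE 0 x = x := by
  unfold shE
  rw [sh_zero, sh_zero]
  rfl

lemma shE_mem (Φ : ℂ⟦X⟧) (n : ℕ) (x : E) (hx : x ∈ G Φ) : shE n x ∈ G Φ := by
  rw [mem_G] at hx ⊢
  change toPS (sh n x.snd) = Φ * toPS (sh n x.fst)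
  rw [toPS_sh, toPS_sh, hx]
  ring

lemma shE_mem0 (Φ : ℂ⟦X⟧) (n : ℕ) (hn : 0 < n) (x : E) (hx : x ∈ G Φ) : shE n x ∈ G0 Φ := by
  refine ⟨shE_mem Φ n x hx, ?_⟩
  change sh n x.fst 0 = 0
  rw [sh_apply, if_neg (by omega)]

lemma bkE_mem (Φ : ℂ⟦X⟧) (n : ℕ) (x : E) (hx : x ∈ G Φ) (h0 : ∀ k, k < n → x.fst k = 0) :
    bkE n x ∈ G Φ := by
  rw [mem_G] at hx ⊢
  change toPS (bk n x.snd) = Φ * toPS (bk n x.fst)
  have h1 : x.fst = sh n (bk n x.fst) := by
    ext k
    rw [sh_apply]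
    split_ifs with hk
    · rw [bk_apply, show k - n + n = k by omega]
    · exact h0 k (by omega)
  have h2 : toPS x.snd = X ^ n * (Φ * toPS (bk n x.fst)) := by
    rw [hx, h1, toPS_sh, ← h1]
    ring
  ext k
  have := congrArg (coeff (k + n)) h2
  rw [coeff_X_pow_mul] at this
  rw [← this]
  simp

section wander

variable {Φ : ℂ⟦X⟧} {e : E} (heG : e ∈ G Φ) (hen : ‖e‖ = 1) (he0 : e.fst 0 ≠ 0)
  (heo : ∀ y ∈ G0 Φ, ⟪e, y⟫_ℂ = 0)

include heG hen heo in
lemma orthonormal_e : Orthonormal ℂ (fun n => shE n e) := by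
  have key : ∀ m n, m ≤ n → ⟪shE m e, shE n e⟫_ℂ = if m = n then 1 else 0 := by
    intro m n h
    rw [inner_shE, bkE_shE m n h]
    split_ifs with hmn
    · subst hmn
      rw [Nat.sub_self, shE_zero, inner_self_eq_norm_sq_to_K, hen]
      simp
    · exact heo _ (shE_mem0 Φ _ (by omega) e heG)
  rw [orthonormal_iff_ite]
  intro m n
  rcases le_total m n with h | h
  · exact key m n h
  · rw [← inner_conj_symm, key n m h]
    by_cases hmn : m = n
    · simp [hmn]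
    · simp [hmn, Ne.symm hmn]

include heG hen he0 heo in
lemma eq_zero_of_orth (x : E) (hx : x ∈ G Φ) (h : ∀ n, ⟪shE n e, x⟫_ℂ = 0) : x = 0 := by
  have h1 : ∀ n, x.fst n = 0 := by
    intro n
    induction n using Nat.strong_induction_on with
    | _ n ih =>
      have h2 := bkE_mem Φ n x hx ih
      have h3 : bkE n x - (x.fst n / e.fst 0) • e ∈ G0 Φ := by
        refine ⟨(G Φ).sub_mem h2 ((G Φ).smul_mem _ heG), ?_⟩
        have : (bkE n x).fst 0 = x.fst n := by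
          change bk n x.fst 0 = _
          simp
        simp only [WithLp.sub_fst, WithLp.smul_fst, lp.coeFn_sub, lp.coeFn_smul, Pi.sub_apply,
          Pi.smul_apply, this, smul_eq_mul]
        field_simp
        ring
      have h4 := heo _ h3
      rw [inner_sub_right, ← inner_shE, h n, inner_smul_right, inner_self_eq_norm_sq_to_K,
        hen] at h4
      simpa [he0] using h4
  have h2 : x.fst = 0 := by
    ext n; simpa using h1 n
  have h3 : x.snd = 0 := by
    rw [mem_G, h2, toPS_zero, mul_zero] at hx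
    ext n
    have := congrArg (coeff n) hx
    simpa using this
  have h4 := WithLp.prod_norm_sq_eq_of_L2 x
  rw [h2, h3] at h4
  simpa using h4

include heG hen he0 heo in
lemma orth_G (x : E) (h : ∀ n, ⟪shE n e, x⟫_ℂ = 0) (y : E) (hy : y ∈ G Φ) : ⟪y, x⟫_ℂ = 0 := by
  have : CompleteSpace (G Φ) := (isClosed_G Φ).completeSpace_coe
  obtain ⟨w, hw, hw2⟩ := Submodule.HasOrthogonalProjection.exists_orthogonal (K := G Φ) x
  have h1 : w = 0 := by
    apply eq_zero_of_orth heG hen he0 heo w hw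
    intro n
    have h2 := (Submodule.mem_orthogonal _ _).1 hw2 _ (shE_mem Φ n e heG)
    rw [inner_sub_right, h n, zero_sub, neg_eq_zero] at h2
    exact h2
  rw [h1, sub_zero] at hw2
  exact (Submodule.mem_orthogonal _ _).1 hw2 y hy

include heG hen heo in
lemma isometry_e (g : H) : ∃ y : E, ‖y‖ = ‖g‖ ∧ toPS y.fst = toPS e.fst * toPS g ∧
    toPS y.snd = toPS e.snd * toPS g := by
  have ho := orthonormal_e heG hen heo
  set y := ho.orthogonalFamily.linearIsometry g with hy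
  have hs : HasSum (fun n => g n • shE n e) y := by
    have := ho.orthogonalFamily.hasSum_linearIsometry g
    simpa using this
  have key : ∀ (a z : H) (T : E →L[ℂ] H), (∀ n, T (shE n e) = sh n a) → T y = z →
      toPS z = toPS a * toPS g := by
    intro a z T hT hz
    ext k
    have h1 := (hs.mapL ((lp.evalCLM ℂ (fun _ : ℕ => ℂ) 2 k).comp T))
    have h2 : HasSum (fun n => g n * sh n a k) (z k) := by
      have e1 : (fun n => g n * sh n a k) = fun n =>
          ((lp.evalCLM ℂ (fun _ : ℕ => ℂ) 2 k).comp T) (g n • shE n e) := by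
        funext n
        rw [map_smul, ContinuousLinearMap.comp_apply, hT]
        rfl
      have e2 : z k = ((lp.evalCLM ℂ (fun _ : ℕ => ℂ) 2 k).comp T) y := by
        rw [ContinuousLinearMap.comp_apply, hz]
        rfl
      rw [e1, e2]
      exact h1
    have h3 : HasSum (fun n => g n * sh n a k) (∑ n ∈ Finset.range (k + 1), g n * sh n a k) := by
      apply hasSum_sum_of_ne_finset_zero
      intro n hn
      rw [sh_apply, if_neg (by simpa using hn), mul_zero]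
    rw [coeff_toPS, h2.unique h3, mul_comm, coeff_mul,
      Finset.Nat.sum_antidiagonal_eq_sum_range_succ (fun i j => coeff i (toPS g) * coeff j (toPS a))]
    refine Finset.sum_congr rfl fun n hn => ?_
    rw [sh_apply, if_pos (by simpa [Nat.lt_succ_iff] using hn)]
    simp
  refine ⟨y, ho.orthogonalFamily.linearIsometry.norm_map g, ?_, ?_⟩
  · exact key e.fst y.fst (WithLp.fstL 2 ℂ H H) (fun n => rfl) rfl
  · exact key e.snd y.snd (WithLp.sndL 2 ℂ H H) (fun n => rfl) rfl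

end wander

/-- the constant function one -/
noncomputable def one : H := lp.single 2 0 (1:ℂ)

lemma inner_one (x : H) : ⟪one, x⟫_ℂ = x 0 := by
  unfold one
  rw [lp.inner_single_left]
  simp

lemma exists_wander (Φ : ℂ⟦X⟧) (u v : H) (huv : toPS v = Φ * toPS u) (hu : u 0 ≠ 0) :
    ∃ e : E, e ∈ G Φ ∧ ‖e‖ = 1 ∧ 0 < (e.fst 0).re ∧ (e.fst 0).im = 0 ∧
      ∀ y ∈ G0 Φ, ⟪e, y⟫_ℂ = 0 := by
  have : CompleteSpace (G0 Φ) := (isClosed_G0 Φ).completeSpace_coe
  set x0 : E := (u 0)⁻¹ • WithLp.toLp 2 (u, v) with hx0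
  have hx0G : x0 ∈ G Φ := (G Φ).smul_mem _ huv
  have hx00 : x0.fst 0 = 1 := by
    change ((u 0)⁻¹ • u) 0 = 1
    simp [hu]
  obtain ⟨w, hw, hw2⟩ := Submodule.HasOrthogonalProjection.exists_orthogonal (K := G0 Φ) x0
  have h1 : (x0 - w).fst 0 = 1 := by
    simp [hx00, hw.2]
  have h2 : x0 - w ≠ 0 := by
    intro h
    rw [h] at h1
    simp at h1
  have h3 : 0 < ‖x0 - w‖ := norm_pos_iff.2 h2
  have h4 : (((‖x0 - w‖⁻¹ : ℝ) : ℂ) • (x0 - w)).fst 0 = ((‖x0 - w‖⁻¹ : ℝ) : ℂ) := by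
    rw [WithLp.smul_fst, lp.coeFn_smul, Pi.smul_apply, h1]
    simp
  refine ⟨((‖x0 - w‖⁻¹ : ℝ) : ℂ) • (x0 - w), (G Φ).smul_mem _ ((G Φ).sub_mem hx0G hw.1), ?_, ?_,
    ?_, ?_⟩
  · rw [norm_smul, Complex.norm_real, norm_inv, norm_norm]
    field_simp
  · rw [h4, Complex.ofReal_re]
    positivity
  · rw [h4, Complex.ofReal_im]
  · intro y hy
    rw [inner_smul_left, (Submodule.mem_orthogonal' _ _).1 hw2 y hy, mul_zero]

/-- A Pythagorean pair with quotient `Φ`, from the density of the domain of multiplication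
by `Φ`. -/
theorem exists_pair (Φ : ℂ⟦X⟧)
    (hd : ∀ ε : ℝ, 0 < ε → ∃ u v : H, toPS v = Φ * toPS u ∧ ‖u - one‖ ≤ ε) :
    ∃ a b : H, (∀ g : H, ∃ y z : H, toPS y = toPS a * toPS g ∧ toPS z = toPS b * toPS g ∧
        ‖y‖ ^ 2 + ‖z‖ ^ 2 = ‖g‖ ^ 2) ∧
      (∀ g : H, (∀ j, ⟪sh j a, g⟫_ℂ = 0) → g = 0) ∧ 0 < (a 0).re ∧ (a 0).im = 0 ∧
      toPS b = Φ * toPS a ∧
      (∀ f : H, (∀ j, ⟪sh j b, f⟫_ℂ = 0) → ∀ u v : H, toPS v = Φ * toPS u → ⟪v, f⟫_ℂ = 0) := by
  obtain ⟨u, v, huv, hu⟩ := hd (1/2) (by norm_num)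
  have hu0 : u 0 ≠ 0 := by
    intro h
    have h1 := lp.norm_apply_le_norm (by norm_num) (u - one) 0
    have h2 : (u - one) 0 = -1 := by
      simp [h, one]
    rw [h2] at h1
    norm_num at h1
    linarith
  obtain ⟨e, heG, hen, hre, him, heo⟩ := exists_wander Φ u v huv hu0
  have he0 : e.fst 0 ≠ 0 := by
    intro h
    rw [h] at hre
    simp at hre
  refine ⟨e.fst, e.snd, ?_, ?_, hre, him, heG, ?_⟩
  · intro g
    obtain ⟨y, hy1, hy2, hy3⟩ := isometry_e heG hen heo g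
    refine ⟨y.fst, y.snd, hy2, hy3, ?_⟩
    rw [← WithLp.prod_norm_sq_eq_of_L2, hy1]
  · intro g hg
    have h1 : ∀ y ∈ G Φ, ⟪y.fst, g⟫_ℂ = 0 := by
      intro y hy
      have := orth_G heG hen he0 heo (WithLp.toLp 2 (g, 0)) (fun n => by
        rw [inner_E]
        change ⟪sh n e.fst, g⟫_ℂ + ⟪sh n e.snd, 0⟫_ℂ = 0
        rw [hg n]; simp) y hy
      rw [inner_E] at this
      simpa using this
    ext j
    have h2 : ∀ ε : ℝ, 0 < ε → ‖g j‖ ≤ ε * ‖g‖ := by
      intro ε hε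
      obtain ⟨u, v, huv, hu⟩ := hd ε hε
      have h3 := h1 _ (shE_mem Φ j (WithLp.toLp 2 (u, v)) huv)
      change ⟪sh j u, g⟫_ℂ = 0 at h3
      have h4 : ⟪sh j (u - one), g⟫_ℂ = - g j := by
        rw [sh_sub, inner_sub_left, h3, inner_sh, inner_one]
        simp
      have h5 := norm_inner_le_norm (𝕜 := ℂ) (sh j (u - one)) g
      rw [h4, norm_neg, norm_sh] at h5
      exact h5.trans (by gcongr)
    have h6 : ‖g j‖ ≤ 0 := by
      apply le_of_forall_pos_le_add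
      intro ε hε
      have := h2 (ε / (‖g‖ + 1)) (by positivity)
      refine this.trans ?_
      rw [zero_add, div_mul_eq_mul_div, div_le_iff₀ (by positivity)]
      nlinarith [norm_nonneg g]
    simpa using h6
  · intro f hf u v huv
    have := orth_G heG hen he0 heo (WithLp.toLp 2 (0, f)) (fun n => by
        rw [inner_E]
        change ⟪sh n e.fst, 0⟫_ℂ + ⟪sh n e.snd, f⟫_ℂ = 0
        rw [hf n]; simp) (WithLp.toLp 2 (u, v)) huv
    rw [inner_E] at this
    simpa using this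

end Pool.Agent.H449Z.DBR
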