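import Pool.Agent.H449Z.DBRGraph

set_option autoImplicit false

open PowerSeries
open scoped InnerProductSpace

namespace Pool.Agent.H449Z.DBR

/-- truncation of a power series -/
noncomputable def tr (M : ℕ) : ℂ⟦X⟧ →ₗ[ℂ] EuclideanSpace ℂ (Fin M) where
  toFun h := WithLp.toLp 2 fun i : Fin M => coeff (i:ℕ) h
  map_add' h k := by
    ext i; simp
  map_smul' c h := by
    ext i; simp

/-- truncated norm -/
noncomputable def nm (M : ℕ) (h : ℂ⟦X⟧) : ℝ := ‖tr M h‖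

lemma nm_nonneg (M : ℕ) (h : ℂ⟦X⟧) : 0 ≤ nm M h := norm_nonneg _

lemma nm_sq (M : ℕ) (h : ℂ⟦X⟧) : nm M h ^ 2 = ∑ n ∈ Finset.range M, ‖coeff n h‖ ^ 2 := by
  unfold nm
  rw [EuclideanSpace.norm_sq_eq, ← Fin.sum_univ_eq_sum_range (fun n => ‖coeff n h‖ ^ 2)]
  rfl

lemma nm_add (M : ℕ) (h k : ℂ⟦X⟧) : nm M (h + k) ≤ nm M h + nm M k := by
  unfold nm
  rw [map_add]
  exact norm_add_le _ _

lemma nm_sub (M : ℕ) (h k : ℂ⟦X⟧) : nm M (h - k) ≤ nm M h + nm M k := by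
  unfold nm
  rw [map_sub]
  exact norm_sub_le _ _

lemma nm_C_mul (M : ℕ) (c : ℂ) (h : ℂ⟦X⟧) : nm M (C c * h) = ‖c‖ * nm M h := by
  unfold nm
  rw [← smul_eq_C_mul, map_smul, norm_smul]

lemma nm_sum (M : ℕ) (s : Finset ℕ) (h : ℕ → ℂ⟦X⟧) :
    nm M (∑ j ∈ s, h j) ≤ ∑ j ∈ s, nm M (h j) := by
  unfold nm
  rw [map_sum]
  exact norm_sum_le _ _

lemma nm_congr (M : ℕ) (h k : ℂ⟦X⟧) (hd : X ^ M ∣ h - k) : nm M h = nm M k := by
  unfold nm
  congr 1
  ext i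
  have := X_pow_dvd_iff.1 hd i i.2
  rw [map_sub, sub_eq_zero] at this
  exact this

lemma nm_le_of_sq {M : ℕ} {h : ℂ⟦X⟧} {c : ℝ} (hc : 0 ≤ c) (h1 : nm M h ^ 2 ≤ c ^ 2) :
    nm M h ≤ c := (pow_le_pow_iff_left₀ (nm_nonneg _ _) hc two_ne_zero).1 h1

lemma nm_X_mul (M : ℕ) (h : ℂ⟦X⟧) : nm M (X * h) ≤ nm M h := by
  apply nm_le_of_sq (nm_nonneg _ _)
  rw [nm_sq, nm_sq]
  calc ∑ n ∈ Finset.range M, ‖coeff n (X * h)‖ ^ 2
      ≤ ∑ n ∈ Finset.range (M + 1), ‖coeff n (X * h)‖ ^ 2 := by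
        rw [Finset.sum_range_succ]
        have : 0 ≤ ‖coeff M (X * h)‖ ^ 2 := by positivity
        linarith
    _ = _ := by
        rw [Finset.sum_range_succ']
        simp [coeff_succ_X_mul]

lemma nm_X_pow_mul (M K : ℕ) (h : ℂ⟦X⟧) : nm M (X ^ K * h) ≤ nm M h := by
  induction K with
  | zero => simp
  | succ K ih =>
    rw [pow_succ', mul_assoc]
    exact (nm_X_mul _ _).trans ih

lemma nm_one (M : ℕ) : nm M 1 ≤ 1 := by
  apply nm_le_of_sq zero_le_one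
  rw [nm_sq]
  cases M with
  | zero => simp
  | succ M =>
    rw [Finset.sum_range_succ']
    simp [coeff_one]

lemma contr (M K : ℕ) (ρ : ℝ) (h0 : 0 ≤ ρ) (h1 : ρ ≤ 1) (g : ℂ⟦X⟧) :
    ρ * nm M ((1 - X ^ K) * g) ^ 2 ≤ nm M ((1 - C (ρ:ℂ) * X ^ K) * g) ^ 2 := by
  have hy := nm_X_pow_mul M K g
  have e1 : (1 - X ^ K) * g = g - X ^ K * g := by ring
  have e2 : (1 - C (ρ:ℂ) * X ^ K) * g = g - (ρ:ℂ) • (X ^ K * g) := by
    rw [smul_eq_C_mul]; ring
  rw [e1, e2]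
  unfold nm at *
  rw [map_sub, map_sub, map_smul]
  set x := tr M g
  set y := tr M (X ^ K * g)
  rw [@norm_sub_sq ℂ, @norm_sub_sq ℂ, inner_smul_right, norm_smul, Complex.norm_real,
    Real.norm_of_nonneg h0]
  have e3 : RCLike.re ((ρ:ℂ) * ⟪x, y⟫_ℂ) = ρ * RCLike.re ⟪x, y⟫_ℂ := by
    simp
  rw [e3]
  have hy2 : ‖y‖ ^ 2 ≤ ‖x‖ ^ 2 := by gcongr
  have hy0 : 0 ≤ ‖y‖ ^ 2 := by positivity
  have h3 : ρ * ‖y‖ ^ 2 ≤ ‖x‖ ^ 2 := by nlinarith
  have h4 : (1 - ρ) * (ρ * ‖y‖ ^ 2) ≤ (1 - ρ) * ‖x‖ ^ 2 := by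
    apply mul_le_mul_of_nonneg_left h3; linarith
  nlinarith

noncomputable def dl (j : ℕ) : ℝ := (1/2) ^ j / 32

lemma dl_pos (j : ℕ) : 0 < dl j := by unfold dl; positivity

lemma dl_le (j : ℕ) : dl j ≤ 1 / 32 := by
  unfold dl
  have : ((1:ℝ)/2) ^ j ≤ 1 := pow_le_one₀ (by norm_num) (by norm_num)
  linarith

lemma sum_dl_Ico (J k : ℕ) : ∑ j ∈ Finset.Ico J k, dl j ≤ 2 * dl J := by
  have key : ∀ k, ∑ j ∈ Finset.Ico J (J + k), dl j + 2 * dl (J + k) = 2 * dl J := by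
    intro k
    induction k with
    | zero => simp
    | succ k ih =>
      rw [← add_assoc, Finset.sum_Ico_succ_top (by omega), ← ih]
      unfold dl
      rw [pow_succ]
      ring
  rcases le_total J k with h | h
  · obtain ⟨k, rfl⟩ := Nat.exists_eq_add_of_le h
    have := key k
    have := dl_pos (J + k)
    linarith
  · rw [Finset.Ico_eq_empty (by omega)]
    have := dl_pos J
    simp
    linarith

lemma sum_dl (s : Finset ℕ) : ∑ j ∈ s, dl j ≤ 1 / 16 := by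
  have h1 : s ⊆ Finset.Ico 0 (s.sup id + 1) := by
    intro j hj
    have : j ≤ s.sup id := Finset.le_sup (f := id) hj
    simp; omega
  have h2 := Finset.sum_le_sum_of_subset_of_nonneg h1 (f := dl) fun j _ _ => (dl_pos j).le
  have h3 := sum_dl_Ico 0 (s.sup id + 1)
  have h4 := dl_le 0
  linarith

noncomputable def rho (j : ℕ) : ℝ := 1 - dl j ^ 2

lemma rho_nonneg (j : ℕ) : 0 ≤ rho j := by
  unfold rho
  have := dl_pos j
  have := dl_le j
  nlinarith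

lemma rho_le (j : ℕ) : rho j ≤ 1 := by
  unfold rho
  nlinarith [sq_nonneg (dl j)]

noncomputable def Gi (j : ℕ) : ℂ⟦X⟧ := (1 - C (rho j : ℂ) * X ^ (j + 1))⁻¹

lemma mul_Gi (j : ℕ) : (1 - C (rho j : ℂ) * X ^ (j + 1)) * Gi j = 1 := by
  apply PowerSeries.mul_inv_cancel
  simp

noncomputable def uu (j : ℕ) : ℂ⟦X⟧ := (1 - X ^ (j + 1)) * Gi j

lemma uu_contr (M j : ℕ) (h : ℂ⟦X⟧) : rho j * nm M (uu j * h) ^ 2 ≤ nm M h ^ 2 := by
  have := contr M (j + 1) (rho j) (rho_nonneg j) (rho_le j) (Gi j * h)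
  rw [← mul_assoc, ← mul_assoc, mul_Gi, one_mul] at this
  exact this

lemma nm_Gi (M j : ℕ) : dl j * nm M (Gi j) ≤ 1 := by
  have e1 : Gi j = 1 + C (rho j : ℂ) * (X ^ (j + 1) * Gi j) := by
    have := mul_Gi j
    linear_combination this
  have h1 : nm M (Gi j) ^ 2 ≤ nm M 1 ^ 2 + rho j ^ 2 * nm M (X ^ (j + 1) * Gi j) ^ 2 := by
    rw [nm_sq, nm_sq, nm_sq, Finset.mul_sum, ← Finset.sum_add_distrib]
    refine Finset.sum_le_sum fun n _ => ?_
    have h2 := congrArg (coeff n) e1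
    rw [map_add, coeff_C_mul] at h2
    rw [h2]
    rcases Nat.eq_zero_or_pos n with rfl | hn
    · rw [coeff_X_pow_mul', if_neg (by omega)]
      simp
    · rw [coeff_one, if_neg (by omega), zero_add, norm_mul, Complex.norm_real,
        Real.norm_of_nonneg (rho_nonneg j), mul_pow]
      simp
  have h2 : nm M 1 ^ 2 ≤ 1 := by
    have := nm_one M
    have := nm_nonneg M 1
    nlinarith
  have h3 : nm M (X ^ (j + 1) * Gi j) ^ 2 ≤ nm M (Gi j) ^ 2 := by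
    have := nm_X_pow_mul M (j + 1) (Gi j)
    have := nm_nonneg M (X ^ (j + 1) * Gi j)
    gcongr
  have h4 : rho j ^ 2 ≤ rho j := by
    have := rho_nonneg j
    have := rho_le j
    nlinarith
  have h5 : rho j ^ 2 * nm M (X ^ (j + 1) * Gi j) ^ 2 ≤ rho j * nm M (Gi j) ^ 2 := by
    have := rho_nonneg j
    gcongr
  have h6 : (dl j * nm M (Gi j)) ^ 2 ≤ 1 ^ 2 := by
    have : rho j = 1 - dl j ^ 2 := rfl
    rw [this] at h5
    nlinarith
  exact (pow_le_pow_iff_left₀ (mul_nonneg (dl_pos j).le (nm_nonneg _ _)) zero_le_one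
    two_ne_zero).1 h6

lemma uu_sub_one (j : ℕ) : uu j - 1 = C (-((dl j ^ 2 : ℝ) : ℂ)) * (X ^ (j + 1) * Gi j) := by
  have h := mul_Gi j
  have e : (C (rho j : ℂ) : ℂ⟦X⟧) = 1 + C (-((dl j ^ 2 : ℝ) : ℂ)) := by
    unfold rho
    rw [← map_one (C : ℂ →+* ℂ⟦X⟧), ← map_add]
    congr 1
    push_cast
    ring
  rw [e] at h
  unfold uu
  linear_combination h

lemma nm_uu_sub_one (M j : ℕ) : nm M (uu j - 1) ≤ dl j := by
  rw [uu_sub_one, nm_C_mul, norm_neg, Complex.norm_real, Real.norm_of_nonneg (by positivity)]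
  have h1 := nm_X_pow_mul M (j + 1) (Gi j)
  have h2 := nm_Gi M j
  have h3 := dl_pos j
  calc dl j ^ 2 * nm M (X ^ (j + 1) * Gi j) ≤ dl j ^ 2 * nm M (Gi j) := by gcongr
    _ = dl j * (dl j * nm M (Gi j)) := by ring
    _ ≤ dl j * 1 := by gcongr
    _ = dl j := mul_one _

lemma prod_contr (M : ℕ) (s : Finset ℕ) (h : ℂ⟦X⟧) :
    (1 - ∑ j ∈ s, dl j ^ 2) * nm M ((∏ j ∈ s, uu j) * h) ^ 2 ≤ nm M h ^ 2 := by
  induction s using Finset.induction_on with
  | empty => simp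
  | insert j s hj ih =>
    rw [Finset.sum_insert hj, Finset.prod_insert hj, mul_assoc]
    have h1 := uu_contr M j ((∏ j ∈ s, uu j) * h)
    have h2 : 0 ≤ ∑ j ∈ s, dl j ^ 2 := Finset.sum_nonneg fun _ _ => by positivity
    have h3 : ∑ j ∈ s, dl j ^ 2 ≤ ∑ j ∈ s, dl j := by
      refine Finset.sum_le_sum fun i _ => ?_
      have := dl_pos i
      have := dl_le i
      nlinarith
    have h4 := sum_dl s
    have h5 : rho j = 1 - dl j ^ 2 := rfl
    set σ := ∑ j ∈ s, dl j ^ 2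
    set A := nm M (uu j * ((∏ j ∈ s, uu j) * h)) ^ 2
    have hA : 0 ≤ A := by positivity
    have h6 : (1 - σ) * (rho j * A) ≤ (1 - σ) * nm M ((∏ j ∈ s, uu j) * h) ^ 2 := by
      apply mul_le_mul_of_nonneg_left h1; linarith
    have h7 : 0 ≤ σ * dl j ^ 2 * A := by positivity
    rw [h5] at h6
    nlinarith

lemma nm_prod_mul (M : ℕ) (s : Finset ℕ) (h : ℂ⟦X⟧) :
    nm M ((∏ j ∈ s, uu j) * h) ≤ 2 * nm M h := by
  apply nm_le_of_sq (by have := nm_nonneg M h; positivity)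
  have h1 := prod_contr M s h
  have h3 : ∑ j ∈ s, dl j ^ 2 ≤ ∑ j ∈ s, dl j := by
    refine Finset.sum_le_sum fun i _ => ?_
    have := dl_pos i
    have := dl_le i
    nlinarith
  have h4 := sum_dl s
  have hA : 0 ≤ nm M ((∏ j ∈ s, uu j) * h) ^ 2 := by positivity
  nlinarith

lemma nm_prod_sub_one (M : ℕ) (s : Finset ℕ) :
    nm M ((∏ j ∈ s, uu j) - 1) ≤ 2 * ∑ j ∈ s, dl j := by
  induction s using Finset.induction_on with
  | empty => simp [nm]
  | insert j s hj ih =>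
    rw [Finset.sum_insert hj, Finset.prod_insert hj]
    have e : uu j * ∏ j ∈ s, uu j - 1 = (∏ j ∈ s, uu j) * (uu j - 1) + ((∏ j ∈ s, uu j) - 1) := by
      ring
    rw [e]
    have h1 := nm_add M ((∏ j ∈ s, uu j) * (uu j - 1)) ((∏ j ∈ s, uu j) - 1)
    have h2 := nm_prod_mul M s (uu j - 1)
    have h3 := nm_uu_sub_one M j
    linarith

/-- a block of monomials -/
noncomputable def B (N K L : ℕ) : ℂ⟦X⟧ := X ^ N * ∑ i ∈ Finset.range L, (X ^ K) ^ i

def S (N K L : ℕ) : Finset ℕ := (Finset.range L).image fun i => N + K * i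

lemma card_S (N K L : ℕ) (hK : 0 < K) : (S N K L).card = L := by
  unfold S
  rw [Finset.card_image_of_injective _ ?_, Finset.card_range]
  intro i j hij
  have : K * i = K * j := by simpa using hij
  exact Nat.eq_of_mul_eq_mul_left hK this

lemma coeff_B (N K L n : ℕ) (hK : 0 < K) :
    coeff n (B N K L) = if n ∈ S N K L then 1 else 0 := by
  unfold B
  rw [Finset.mul_sum, map_sum]
  simp_rw [← pow_mul, ← pow_add, coeff_X_pow]
  split_ifs with hn
  · obtain ⟨i, hi, rfl⟩ := Finset.mem_image.1 hn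
    rw [Finset.sum_eq_single i]
    · simp
    · intro j _ hj
      rw [if_neg]
      intro h
      apply hj
      have : K * i = K * j := by omega
      exact (Nat.eq_of_mul_eq_mul_left hK this).symm
    · intro h; exact absurd hi h
  · refine Finset.sum_eq_zero fun i hi => ?_
    rw [if_neg]
    intro h
    exact hn (Finset.mem_image.2 ⟨i, hi, h.symm⟩)

lemma nm_B (M N K L : ℕ) (hK : 0 < K) : nm M (B N K L) ≤ Real.sqrt L := by
  apply nm_le_of_sq (Real.sqrt_nonneg _)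
  rw [nm_sq, Real.sq_sqrt (by positivity)]
  have h1 : ∀ n, ‖coeff n (B N K L)‖ ^ 2 = if n ∈ S N K L then 1 else 0 := by
    intro n
    rw [coeff_B _ _ _ _ hK]
    split_ifs <;> simp
  simp_rw [h1]
  rw [Finset.sum_boole]
  have h2 : ((Finset.range M).filter (fun n => n ∈ S N K L)).card ≤ L := by
    rw [← card_S N K L hK]
    apply Finset.card_le_card
    intro n hn
    rw [card_S N K L hK] at hn
    exact (Finset.mem_filter.1 hn).2
  exact_mod_cast h2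

lemma nm_B_uu (M N L j : ℕ) : dl j * nm M (B N (j + 1) L * uu j) ≤ 2 := by
  have e : B N (j + 1) L * uu j = X ^ N * (Gi j - X ^ ((j + 1) * L) * Gi j) := by
    unfold B uu
    have := mul_neg_geom_sum (X ^ (j + 1) : ℂ⟦X⟧) L
    rw [pow_mul]
    linear_combination (X ^ N * Gi j) * this
  rw [e]
  have h1 := nm_X_pow_mul M N (Gi j - X ^ ((j + 1) * L) * Gi j)
  have h2 := nm_sub M (Gi j) (X ^ ((j + 1) * L) * Gi j)
  have h3 := nm_X_pow_mul M ((j + 1) * L) (Gi j)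
  have h4 := nm_Gi M j
  have h5 := dl_pos j
  nlinarith

/-- coefficientwise limit -/
noncomputable def lim (P : ℕ → ℂ⟦X⟧) : ℂ⟦X⟧ := PowerSeries.mk fun n => coeff n (P (n + 1))

lemma coeff_lim (P : ℕ → ℂ⟦X⟧) (d : ℕ → ℕ) (hd : Monotone d) (hd2 : ∀ k, k ≤ d k)
    (h : ∀ k, X ^ d k ∣ P (k + 1) - P k) (k n : ℕ) (hn : n < d k) :
    coeff n (lim P) = coeff n (P k) := by
  have key : ∀ k k', k ≤ k' → X ^ d k ∣ P k' - P k := by
    intro k k' hk
    induction k', hk using Nat.le_induction with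
    | base => simp
    | succ k' hk ih =>
      have h1 : X ^ d k ∣ P (k' + 1) - P k' := (pow_dvd_pow _ (hd hk)).trans (h k')
      have := dvd_add h1 ih
      rwa [sub_add_sub_cancel] at this
  unfold lim
  rw [coeff_mk]
  rcases le_total k (n + 1) with hk | hk
  · have := X_pow_dvd_iff.1 (key _ _ hk) n hn
    rwa [map_sub, sub_eq_zero] at this
  · have := X_pow_dvd_iff.1 (key _ _ hk) n (by have := hd2 (n + 1); omega)
    rw [map_sub, sub_eq_zero] at this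
    exact this.symm

lemma lim_dvd (P : ℕ → ℂ⟦X⟧) (d : ℕ → ℕ) (hd : Monotone d) (hd2 : ∀ k, k ≤ d k)
    (h : ∀ k, X ^ d k ∣ P (k + 1) - P k) (k M : ℕ) (hM : M ≤ k) : X ^ M ∣ lim P - P k := by
  rw [X_pow_dvd_iff]
  intro n hn
  rw [map_sub, coeff_lim P d hd hd2 h k n (by have := hd2 k; omega), sub_self]

lemma toH (h : ℂ⟦X⟧) (c : ℝ) (hc : ∀ M, nm M h ≤ c) : ∃ x : H, toPS x = h ∧ ‖x‖ ≤ c := by
  have hc0 : 0 ≤ c := (nm_nonneg 0 h).trans (hc 0)
  have h1 : ∀ M, ∑ n ∈ Finset.range M, ‖coeff n h‖ ^ 2 ≤ c ^ 2 := by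
    intro M
    rw [← nm_sq]
    have := nm_nonneg M h
    have := hc M
    gcongr
  have h2 : Summable fun n => ‖coeff n h‖ ^ 2 :=
    summable_of_sum_range_le (fun n => by positivity) h1
  refine ⟨mkH (fun n => coeff n h) h2, ?_, ?_⟩
  · ext n; simp
  · apply (pow_le_pow_iff_left₀ (norm_nonneg _) hc0 two_ne_zero).1
    rw [H_norm_sq]
    exact Real.tsum_le_of_sum_range_le (fun n => by positivity) h1

end Pool.Agent.H449Z.DBR
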