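import Mathlib

set_option autoImplicit false

open MeasureTheory

namespace Pool.Agent.H449Z.Weyl

noncomputable def e (t : ℝ) : ℂ := Complex.exp (2 * (Real.pi:ℂ) * Complex.I * t)

lemma e_add (a b : ℝ) : e (a + b) = e a * e b := by
  unfold e
  rw [← Complex.exp_add]
  congr 1
  push_cast
  ring

lemma conj_e (a : ℝ) : (starRingEnd ℂ) (e a) = e (-a) := by
  unfold e
  rw [← Complex.exp_conj]
  congr 1
  simp [Complex.conj_ofReal, map_ofNat]

lemma e_int (n : ℤ) : e n = 1 := by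
  unfold e
  have := Complex.exp_int_mul_two_pi_mul_I n
  rw [← this]
  congr 1
  push_cast
  ring

lemma re_e (t : ℝ) : (e t).re = Real.cos (2 * Real.pi * t) := by
  unfold e
  have : 2 * (Real.pi:ℂ) * Complex.I * t = ((2 * Real.pi * t : ℝ) : ℂ) * Complex.I := by
    push_cast; ring
  rw [this, Complex.exp_ofReal_mul_I_re]

lemma norm_e (t : ℝ) : ‖e t‖ = 1 := by
  unfold e
  have : 2 * (Real.pi:ℂ) * Complex.I * t = ((2 * Real.pi * t : ℝ) : ℂ) * Complex.I := by
    push_cast; ring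
  rw [this, Complex.norm_exp_ofReal_mul_I]

lemma continuous_e : Continuous e := by
  unfold e
  fun_prop

lemma int_e (h : ℤ) : ∫ t in (0:ℝ)..1, e (h * t) = if h = 0 then 1 else 0 := by
  split_ifs with h0
  · subst h0
    simp [e]
  · have hc : (2 * (Real.pi:ℂ) * Complex.I * h) ≠ 0 := by
      have : (Real.pi : ℂ) ≠ 0 := by exact_mod_cast Real.pi_ne_zero
      have h1 : (h : ℂ) ≠ 0 := by exact_mod_cast h0
      simp [this, h1, Complex.I_ne_zero]
    have h1 : (fun t : ℝ => e (h * t)) =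
        fun t : ℝ => Complex.exp ((2 * (Real.pi:ℂ) * Complex.I * h) * t) := by
      funext t
      unfold e
      congr 1
      push_cast
      ring
    rw [h1, integral_exp_mul_complex hc]
    have h2 : Complex.exp (2 * (Real.pi:ℂ) * Complex.I * h * ((1:ℝ):ℂ)) = 1 := by
      have := e_int h
      unfold e at this
      simpa using this
    rw [h2]
    simp

lemma parseval (H : Finset ℤ) (r : ℤ → ℂ) :
    ∫ t in Set.Ico (0:ℝ) 1, ‖∑ h ∈ H, r h * e (h * t)‖ ^ 2 = ∑ h ∈ H, ‖r h‖ ^ 2 := by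
  rw [integral_Ico_eq_integral_Ioc, ← intervalIntegral.integral_of_le zero_le_one]
  have key : ∀ t : ℝ, ((‖∑ h ∈ H, r h * e (h * t)‖ ^ 2 : ℝ) : ℂ) =
      ∑ h ∈ H, ∑ k ∈ H, r h * (starRingEnd ℂ) (r k) * e (((h - k : ℤ) : ℝ) * t) := by
    intro t
    rw [Complex.ofReal_pow, ← Complex.mul_conj', map_sum, Finset.sum_mul_sum]
    refine Finset.sum_congr rfl fun h _ => Finset.sum_congr rfl fun k _ => ?_
    rw [map_mul, conj_e]
    have : ((h - k : ℤ) : ℝ) * t = h * t + -(k * t) := by push_cast; ring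
    rw [this, e_add]
    ring
  have hcont : ∀ (w : ℂ) (m : ℤ), Continuous fun t : ℝ => w * e ((m:ℝ) * t) := by
    intro w m
    exact continuous_const.mul (continuous_e.comp (continuous_const.mul continuous_id))
  apply Complex.ofReal_injective
  rw [← intervalIntegral.integral_ofReal]
  simp_rw [key]
  rw [intervalIntegral.integral_finsetSum]
  · push_cast
    refine Finset.sum_congr rfl fun h hh => ?_
    rw [intervalIntegral.integral_finsetSum]
    · rw [Finset.sum_eq_single h]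
      · rw [intervalIntegral.integral_const_mul]
        have := int_e (h - h)
        push_cast at this
        rw [this]
        simp [Complex.mul_conj']
      · intro k _ hk
        rw [intervalIntegral.integral_const_mul]
        have := int_e (h - k)
        push_cast at this
        rw [this, if_neg (by omega)]
        simp
      · intro h'; exact absurd hh h'
    · intro k _
      have := (hcont (r h * (starRingEnd ℂ) (r k)) (h - k)).intervalIntegrable (μ := volume) 0 1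
      push_cast at this
      exact this
  · intro h _
    exact (continuous_finsetSum _ fun k _ => hcont _ _).intervalIntegrable _ _

/-- the quadratic Weyl sum -/
noncomputable def F (X : ℕ) (a b : ℝ) : ℂ := ∑ x ∈ Finset.Icc 1 X, e (a * x + b * x ^ 2)

noncomputable def r (X : ℕ) (b : ℝ) (h : ℤ) : ℂ :=
  ∑ p ∈ (Finset.Icc 1 X ×ˢ Finset.Icc 1 X).filter (fun p : ℕ × ℕ => (p.1:ℤ) - p.2 = h),
    e (b * ((p.1:ℝ) ^ 2 - (p.2:ℝ) ^ 2))

lemma F_four (X : ℕ) (a b : ℝ) :
    ‖F X a b‖ ^ 4 = ‖∑ h ∈ Finset.Icc (-(X:ℤ)) X, r X b h * e (h * a)‖ ^ 2 := by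
  have h1 : F X a b * (starRingEnd ℂ) (F X a b) =
      ∑ h ∈ Finset.Icc (-(X:ℤ)) X, r X b h * e (h * a) := by
    unfold F r
    rw [map_sum, Finset.sum_mul_sum, ← Finset.sum_product']
    rw [← Finset.sum_fiberwise_of_maps_to (s := Finset.Icc 1 X ×ˢ Finset.Icc 1 X)
      (t := Finset.Icc (-(X:ℤ)) X) (g := fun p : ℕ × ℕ => (p.1:ℤ) - p.2)]
    · refine Finset.sum_congr rfl fun h _ => ?_
      rw [Finset.sum_mul]
      refine Finset.sum_congr rfl fun p hp => ?_
      have hp2 := (Finset.mem_filter.1 hp).2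
      have hp3 : (h:ℝ) = (p.1:ℝ) - p.2 := by exact_mod_cast hp2.symm
      rw [conj_e, ← e_add, ← e_add, hp3]
      congr 1
      ring
    · intro p hp
      simp only [Finset.mem_product, Finset.mem_Icc] at hp ⊢
      omega
  rw [← h1, norm_mul, Complex.norm_conj]
  ring

lemma int_F (X : ℕ) (b : ℝ) :
    ∫ a in Set.Ico (0:ℝ) 1, ‖F X a b‖ ^ 4 = ∑ h ∈ Finset.Icc (-(X:ℤ)) X, ‖r X b h‖ ^ 2 := by
  simp_rw [F_four]
  exact parseval _ _

lemma r_lower (X q j a : ℕ) (hq : 0 < q) (hX : 2 * (q * j) ≤ X) (hX0 : 0 < X) (b : ℝ)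
    (hb1 : (a:ℝ) / q ≤ b) (hb2 : b ≤ (a:ℝ) / q + 1 / (6 * (X:ℝ) ^ 2)) :
    ((X:ℝ) / 4) ^ 2 ≤ ‖r X b ((q * j : ℕ) : ℤ)‖ ^ 2 := by
  have hXr : (0:ℝ) < X := by exact_mod_cast hX0
  have hqr : (0:ℝ) < q := by exact_mod_cast hq
  have h1 : (X:ℝ) / 4 ≤ (r X b ((q * j : ℕ) : ℤ)).re := by
    unfold r
    rw [Complex.re_sum]
    set S := (Finset.Icc 1 X ×ˢ Finset.Icc 1 X).filter
      (fun p : ℕ × ℕ => (p.1:ℤ) - p.2 = ((q * j : ℕ) : ℤ)) with hS
    have hcard : X - q * j ≤ S.card := by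
      have : (Finset.Icc 1 (X - q * j)).card ≤ S.card := by
        apply Finset.card_le_card_of_injOn (fun y => (y + q * j, y))
        · intro y hy
          simp only [Finset.coe_Icc, Set.mem_Icc] at hy
          simp only [hS, Finset.coe_filter, Finset.mem_product, Finset.mem_Icc, Set.mem_ofPred_eq]
          refine ⟨⟨⟨by omega, by omega⟩, by omega, by omega⟩, ?_⟩
          push_cast; ring
        · intro y _ y' _ hyy
          exact (Prod.ext_iff.1 hyy).2
      simpa using this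
    have hterm : ∀ p ∈ S, (1/2 : ℝ) ≤ (e (b * ((p.1:ℝ) ^ 2 - (p.2:ℝ) ^ 2))).re := by
      intro p hp
      simp only [hS, Finset.mem_filter, Finset.mem_product, Finset.mem_Icc] at hp
      obtain ⟨⟨⟨h1, h2⟩, h3, h4⟩, h5⟩ := hp
      have h6 : (p.1:ℝ) - p.2 = q * j := by exact_mod_cast h5
      have h7 : (p.1:ℝ) ^ 2 - (p.2:ℝ) ^ 2 = q * j * ((p.1:ℝ) + p.2) := by
        rw [← h6]; ring
      set β := b - (a:ℝ) / q with hβ
      have h8 : b * ((p.1:ℝ) ^ 2 - (p.2:ℝ) ^ 2) =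
          (((a * j * (p.1 + p.2) : ℕ) : ℤ) : ℝ) + β * (q * j * ((p.1:ℝ) + p.2)) := by
        rw [h7, hβ]
        push_cast
        field_simp
        ring
      rw [h8, e_add, e_int, one_mul, re_e]
      have hβ0 : 0 ≤ β := by linarith
      have hβ1 : β ≤ 1 / (6 * (X:ℝ) ^ 2) := by linarith
      have h9 : (q:ℝ) * j * ((p.1:ℝ) + p.2) ≤ (X:ℝ) ^ 2 := by
        have a1 : 2 * ((q:ℝ) * j) ≤ X := by exact_mod_cast hX
        have a2 : (p.1:ℝ) ≤ X := by exact_mod_cast h2
        have a3 : (p.2:ℝ) ≤ X := by exact_mod_cast h4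
        have a4 : (0:ℝ) ≤ (q:ℝ) * j := by positivity
        nlinarith
      have h10 : 0 ≤ (q:ℝ) * j * ((p.1:ℝ) + p.2) := by positivity
      have h11 : β * (q * j * ((p.1:ℝ) + p.2)) ≤ 1 / 6 := by
        calc β * (q * j * ((p.1:ℝ) + p.2)) ≤ 1 / (6 * (X:ℝ) ^ 2) * (X:ℝ) ^ 2 := by gcongr
          _ = 1 / 6 := by field_simp
      have h12 : 0 ≤ β * (q * j * ((p.1:ℝ) + p.2)) := by positivity
      rw [← Real.cos_pi_div_three]
      apply Real.cos_le_cos_of_nonneg_of_le_pi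
      · positivity
      · linarith [Real.pi_pos]
      · nlinarith [Real.pi_pos]
    have h2 := Finset.card_nsmul_le_sum S _ _ hterm
    rw [nsmul_eq_mul] at h2
    have h3 : (X:ℝ) / 2 ≤ S.card := by
      have : X ≤ 2 * S.card := by omega
      have : (X:ℝ) ≤ 2 * S.card := by exact_mod_cast this
      linarith
    linarith
  have h2 := Complex.re_le_norm (r X b ((q * j : ℕ) : ℤ))
  have h3 : (0:ℝ) ≤ X / 4 := by positivity
  gcongr
  linarith

lemma continuous_r (X : ℕ) (h : ℤ) : Continuous fun b => r X b h := by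
  unfold r
  exact continuous_finsetSum _ fun p _ => continuous_e.comp (continuous_id.mul continuous_const)

lemma continuous_F (X : ℕ) : Continuous fun p : ℝ × ℝ => F X p.1 p.2 := by
  unfold F
  refine continuous_finsetSum _ fun x _ => continuous_e.comp ?_
  fun_prop

/-- short intervals to the right of the fractions with denominator `q` -/
def A (q : ℕ) (d : ℝ) : Set ℝ := ⋃ a ∈ Finset.range q, Set.Ico ((a:ℝ) / q) ((a:ℝ) / q + d)

lemma A_meas (q : ℕ) (d : ℝ) : MeasurableSet (A q d) :=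
  Finset.measurableSet_biUnion _ fun _ _ => measurableSet_Ico

lemma A_sub (q : ℕ) (d : ℝ) (hq : 0 < q) (hd : d ≤ 1 / q) : A q d ⊆ Set.Ico 0 1 := by
  intro x hx
  simp only [A, Set.mem_iUnion, Finset.mem_range, Set.mem_Ico] at hx
  obtain ⟨a, ha, h1, h2⟩ := hx
  have hqr : (0:ℝ) < q := by exact_mod_cast hq
  refine ⟨le_trans (by positivity) h1, lt_of_lt_of_le h2 ?_⟩
  have : (a:ℝ) + 1 ≤ q := by exact_mod_cast ha
  calc (a:ℝ) / q + d ≤ (a:ℝ) / q + 1 / q := by linarith
    _ = ((a:ℝ) + 1) / q := by ring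
    _ ≤ 1 := by rw [div_le_one hqr]; exact this

lemma A_vol (q : ℕ) (d : ℝ) (hq : 0 < q) (hd0 : 0 ≤ d) (hd : d ≤ 1 / q) :
    volume.real (A q d) = q * d := by
  have hqr : (0:ℝ) < q := by exact_mod_cast hq
  unfold A
  rw [measureReal_biUnion_finset (h := fun _ _ => by simp)]
  · simp [hd0]
  · have key : ∀ a b : ℕ, a < b → Disjoint (Set.Ico ((a:ℝ) / q) ((a:ℝ) / q + d))
        (Set.Ico ((b:ℝ) / q) ((b:ℝ) / q + d)) := by
      intro a b hab
      rw [Set.disjoint_left]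
      intro x h1 h2
      have : (a:ℝ) + 1 ≤ b := by exact_mod_cast hab
      have h3 : ((a:ℝ) + 1) / q ≤ (b:ℝ) / q := by gcongr
      have h4 : ((a:ℝ) + 1) / q = (a:ℝ) / q + 1 / q := by ring
      linarith [h1.2, h2.1]
    intro a _ b _ hab
    rcases lt_or_gt_of_ne hab with h | h
    · exact key a b h
    · exact (key b a h).symm
  · intro _ _; exact measurableSet_Ico

lemma main_lower (X J T : ℕ) (hX0 : 0 < X) (hJ : 0 < J) (hX : 2 * ((1 + J * (2 * T)) * J) ≤ X)
    (S : Set ℝ) (hS1 : S ⊆ Set.Ico 0 1)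
    (hS : ∀ t ∈ Finset.Ico T (2 * T), A (1 + J * t) (1 / (6 * (X:ℝ) ^ 2)) ⊆ S) :
    (J:ℝ) * ((X:ℝ) / 4) ^ 2 *
        ∑ t ∈ Finset.Ico T (2 * T), volume.real (A (1 + J * t) (1 / (6 * (X:ℝ) ^ 2))) ≤
      ∫ b in S, ∑ h ∈ Finset.Icc (-(X:ℤ)) X, ‖r X b h‖ ^ 2 := by
  have hint : ∀ h : ℤ, IntegrableOn (fun b => ‖r X b h‖ ^ 2) S volume := by
    intro h
    have hc : Continuous fun b => ‖r X b h‖ ^ 2 := ((continuous_r X h).norm).pow 2
    exact (hc.continuousOn.integrableOn_Icc (a := 0) (b := 1)).mono_set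
      (hS1.trans Set.Ico_subset_Icc_self)
  rw [integral_finsetSum _ fun h _ => hint h]
  set P := Finset.Ico T (2 * T) ×ˢ Finset.Icc 1 J with hP
  set φ : ℕ × ℕ → ℤ := fun p => (((1 + J * p.1) * p.2 : ℕ) : ℤ) with hφ
  have hle : ∀ p ∈ P, 2 * ((1 + J * p.1) * p.2) ≤ X := by
    intro p hp
    simp only [hP, Finset.mem_product, Finset.mem_Ico, Finset.mem_Icc] at hp
    refine le_trans ?_ hX
    have h1 : p.1 ≤ 2 * T := by omega
    have h2 : p.2 ≤ J := hp.2.2
    gcongr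
  have hinj : Set.InjOn φ P := by
    intro p hp p' hp' hpp
    simp only [hP, Finset.coe_product, Set.mem_prod, Finset.coe_Ico, Finset.coe_Icc, Set.mem_Ico,
      Set.mem_Icc] at hp hp'
    have h1 : (1 + J * p.1) * p.2 = (1 + J * p'.1) * p'.2 := by
      simp only [hφ] at hpp
      exact_mod_cast hpp
    have h2 : p.2 ≡ p'.2 [MOD J] := by
      have a1 : (1 + J * p.1) * p.2 = p.2 + J * (p.1 * p.2) := by ring
      have a2 : (1 + J * p'.1) * p'.2 = p'.2 + J * (p'.1 * p'.2) := by ring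
      unfold Nat.ModEq
      rw [← Nat.add_mul_mod_self_left p.2 J (p.1 * p.2),
        ← Nat.add_mul_mod_self_left p'.2 J (p'.1 * p'.2), ← a1, ← a2, h1]
    have h3 : p.2 = p'.2 := by
      have a1 : (p.2 - 1) ≡ (p'.2 - 1) [MOD J] := by
        apply Nat.ModEq.add_right_cancel' 1
        rw [Nat.sub_add_cancel hp.2.1, Nat.sub_add_cancel hp'.2.1]
        exact h2
      have a2 := Nat.ModEq.eq_of_lt_of_lt a1 (by omega) (by omega)
      omega
    have h4 : p.1 = p'.1 := by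
      rw [← h3] at h1
      have a1 := Nat.eq_of_mul_eq_mul_right (by omega : 0 < p.2) h1
      have a2 : J * p.1 = J * p'.1 := by omega
      exact Nat.eq_of_mul_eq_mul_left hJ a2
    exact Prod.ext h4 h3
  have hsub : P.image φ ⊆ Finset.Icc (-(X:ℤ)) X := by
    intro h hh
    obtain ⟨p, hp, rfl⟩ := Finset.mem_image.1 hh
    have := hle p hp
    simp only [hφ, Finset.mem_Icc]
    omega
  calc (J:ℝ) * ((X:ℝ) / 4) ^ 2 *
        ∑ t ∈ Finset.Ico T (2 * T), volume.real (A (1 + J * t) (1 / (6 * (X:ℝ) ^ 2)))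
      = ∑ p ∈ P, ((X:ℝ) / 4) ^ 2 * volume.real (A (1 + J * p.1) (1 / (6 * (X:ℝ) ^ 2))) := by
        rw [hP, Finset.sum_product, Finset.mul_sum]
        refine Finset.sum_congr rfl fun t _ => ?_
        simp
        ring
    _ ≤ ∑ p ∈ P, ∫ b in S, ‖r X b (φ p)‖ ^ 2 := by
        refine Finset.sum_le_sum fun p hp => ?_
        have hp1 : p.1 ∈ Finset.Ico T (2 * T) := (Finset.mem_product.1 hp).1
        have hsubA := hS p.1 hp1
        calc ((X:ℝ) / 4) ^ 2 * volume.real (A (1 + J * p.1) (1 / (6 * (X:ℝ) ^ 2)))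
            ≤ ∫ b in A (1 + J * p.1) (1 / (6 * (X:ℝ) ^ 2)), ‖r X b (φ p)‖ ^ 2 := by
              apply setIntegral_ge_of_const_le_real (A_meas _ _)
              · exact ne_top_of_le_ne_top (by simp) (measure_mono (hsubA.trans hS1))
              · intro b hb
                simp only [A, Set.mem_iUnion, Finset.mem_range, Set.mem_Ico] at hb
                obtain ⟨a, _, h1, h2⟩ := hb
                exact r_lower X (1 + J * p.1) p.2 a (by omega) (hle p hp) hX0 b h1 h2.le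
              · exact (hint _).mono_set hsubA
          _ ≤ ∫ b in S, ‖r X b (φ p)‖ ^ 2 := by
              apply setIntegral_mono_set (hint _)
              · exact Filter.Eventually.of_forall fun b => by positivity
              · exact hsubA.eventuallyLE
    _ = ∑ h ∈ P.image φ, ∫ b in S, ‖r X b h‖ ^ 2 := by
        rw [Finset.sum_image hinj]
    _ ≤ _ := by
        apply Finset.sum_le_sum_of_subset_of_nonneg hsub
        intro h _ _
        exact integral_nonneg fun b => by positivity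

/-- the set `[0,1) × S` in `Fin 2 → ℝ` -/
def B (S : Set ℝ) : Set (Fin 2 → ℝ) :=
  (MeasurableEquiv.finTwoArrow (α := ℝ)) ⁻¹' (Set.Ico (0:ℝ) 1 ×ˢ S)

lemma B_meas (S : Set ℝ) (hS : MeasurableSet S) : MeasurableSet (B S) :=
  (MeasurableEquiv.finTwoArrow (α := ℝ)).measurable (measurableSet_Ico.prod hS)

lemma B_sub (S : Set ℝ) (hS1 : S ⊆ Set.Ico 0 1) :
    B S ⊆ Set.pi Set.univ (fun _ => Set.Ico (0:ℝ) 1) := by
  intro α hα i _
  have h1 : α 0 ∈ Set.Ico (0:ℝ) 1 := hα.1
  have h2 : α 1 ∈ S := hα.2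
  fin_cases i
  · exact h1
  · exact hS1 h2

lemma B_vol (S : Set ℝ) (hS : MeasurableSet S) : (volume (B S)).toReal = volume.real S := by
  unfold B
  rw [(volume_preserving_finTwoArrow ℝ).measure_preimage
    (measurableSet_Ico.prod hS).nullMeasurableSet, Measure.volume_eq_prod, Measure.prod_prod]
  simp [Measure.real]

lemma B_int (X : ℕ) (S : Set ℝ) (hS1 : S ⊆ Set.Ico 0 1) :
    ∫ α in B S, ‖F X (α 0) (α 1)‖ ^ 4 =
      ∫ b in S, ∑ h ∈ Finset.Icc (-(X:ℤ)) X, ‖r X b h‖ ^ 2 := by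
  have h1 := (volume_preserving_finTwoArrow ℝ).setIntegral_preimage_emb
    (MeasurableEquiv.finTwoArrow (α := ℝ)).measurableEmbedding
    (fun p : ℝ × ℝ => ‖F X p.1 p.2‖ ^ 4) (Set.Ico (0:ℝ) 1 ×ˢ S)
  have h2 : ∫ α in B S, ‖F X (α 0) (α 1)‖ ^ 4 =
      ∫ p in (Set.Ico (0:ℝ) 1 ×ˢ S), ‖F X p.1 p.2‖ ^ 4 := h1
  rw [h2, Measure.volume_eq_prod, ← Measure.prod_restrict, integral_prod_symm]
  · simp_rw [int_F]
  · rw [Measure.prod_restrict, ← Measure.volume_eq_prod]
    have hc : Continuous fun p : ℝ × ℝ => ‖F X p.1 p.2‖ ^ 4 := ((continuous_F X).norm).pow 4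
    have hK : IsCompact (Set.Icc (0:ℝ) 1 ×ˢ Set.Icc (0:ℝ) 1) := isCompact_Icc.prod isCompact_Icc
    exact (hc.continuousOn.integrableOn_compact hK).mono_set
      (Set.prod_mono Set.Ico_subset_Icc_self (hS1.trans Set.Ico_subset_Icc_self))

end Pool.Agent.H449Z.Weyl
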